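import Pool.Agent.H77RW.Fourier

open MeasureTheory Finset Filter
open scoped ENNReal BigOperators Topology Real

namespace Pool.Agent.H77RW

lemma ii_abs (c : ℝ) : IntervalIntegrable (fun t : ℝ => |t| ^ (-(9 / 10) : ℝ)) volume 0 c := by
  have hpos : ∀ c : ℝ, 0 ≤ c →
      IntervalIntegrable (fun t : ℝ => |t| ^ (-(9 / 10) : ℝ)) volume 0 c := by
    intro c hc
    have h := intervalIntegral.intervalIntegrable_rpow' (a := 0) (b := c)
      (by norm_num : (-1:ℝ) < -(9 / 10))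
    refine h.congr ?_
    intro t ht
    rw [Set.uIoc_of_le hc] at ht
    simp only [abs_of_pos ht.1]
  rcases le_total 0 c with h | h
  · exact hpos c h
  · have h1 := hpos (-c) (by linarith)
    rw [IntervalIntegrable.iff_comp_neg] at h1
    simpa using h1

lemma ii_shift (a : ℝ) : Integrable (fun t : ℝ => |t - a| ^ (-(9 / 10) : ℝ)) mu1 := by
  have hpi : (-π : ℝ) ≤ π := by linarith [Real.pi_pos]
  have h1 : IntervalIntegrable (fun t : ℝ => |t| ^ (-(9 / 10) : ℝ)) volume (-π - a) (π - a) :=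
    (ii_abs _).symm.trans (ii_abs _)
  have h2 := h1.comp_sub_right a
  simp only [sub_add_cancel] at h2
  exact (intervalIntegrable_iff_integrableOn_Ioc_of_le hpi).1 h2

/-- The dominating function in one variable. -/
noncomputable def u (t : ℝ) : ℝ :=
  (1 - Real.cos t) ^ (-(9 / 20) : ℝ) + (1 + Real.cos t) ^ (-(9 / 20) : ℝ)

lemma quad_le {t : ℝ} (h : |t| ≤ π) : 2 / π ^ 2 * t ^ 2 ≤ 1 - Real.cos t := by
  have := Real.cos_le_one_sub_mul_cos_sq h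
  linarith

lemma rpow_bound {x t : ℝ} (hx : 2 / π ^ 2 * t ^ 2 ≤ x) (hx0 : x = 0 ∨ t ≠ 0) :
    x ^ (-(9 / 20) : ℝ) ≤ (2 / π ^ 2) ^ (-(9 / 20) : ℝ) * |t| ^ (-(9 / 10) : ℝ) := by
  have hpi := Real.pi_pos
  rcases eq_or_ne t 0 with h0 | h0
  · have hx' : x = 0 := by
      rcases hx0 with h | h
      · exact h
      · exact absurd h0 h
    rw [hx', Real.zero_rpow (by norm_num)]
    positivity
  · have h1 : 0 < 2 / π ^ 2 * t ^ 2 := by positivity
    have h2 := Real.rpow_le_rpow_of_nonpos h1 hx (by norm_num : (-(9 / 20) : ℝ) ≤ 0)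
    refine h2.trans (le_of_eq ?_)
    rw [Real.mul_rpow (by positivity) (by positivity)]
    congr 1
    rw [← sq_abs, ← Real.rpow_natCast, ← Real.rpow_mul (abs_nonneg t)]
    norm_num

lemma u_integrable : Integrable u mu1 := by
  have hpi := Real.pi_pos
  have hm : Measurable u := by
    unfold u
    exact ((measurable_const.sub Real.measurable_cos).pow_const _).add
      ((measurable_const.add Real.measurable_cos).pow_const _)
  have hdom : Integrable (fun t : ℝ => (2 / π ^ 2) ^ (-(9 / 20) : ℝ) *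
      (|t - 0| ^ (-(9 / 10) : ℝ) + (|t - π| ^ (-(9 / 10) : ℝ) + |t - (-π)| ^ (-(9 / 10) : ℝ)))) mu1 :=
    ((ii_shift 0).add ((ii_shift π).add (ii_shift (-π)))).const_mul _
  refine Integrable.mono' hdom hm.aestronglyMeasurable ?_
  filter_upwards [ae_restrict_mem (μ := volume) (measurableSet_Ioc (a := -π) (b := π))] with t ht
  have habs : |t| ≤ π := abs_le.2 ⟨ht.1.le, ht.2⟩
  have h0 : 0 ≤ (1 - Real.cos t) ^ (-(9 / 20) : ℝ) :=
    Real.rpow_nonneg (by linarith [Real.cos_le_one t]) _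
  have h0' : 0 ≤ (1 + Real.cos t) ^ (-(9 / 20) : ℝ) :=
    Real.rpow_nonneg (by linarith [Real.neg_one_le_cos t]) _
  rw [u, Real.norm_of_nonneg (by positivity), sub_zero, mul_add]
  have hc0 : (0:ℝ) ≤ (2 / π ^ 2) ^ (-(9 / 20) : ℝ) := by positivity
  have h1 : (1 - Real.cos t) ^ (-(9 / 20) : ℝ) ≤
      (2 / π ^ 2) ^ (-(9 / 20) : ℝ) * |t| ^ (-(9 / 10) : ℝ) := by
    refine rpow_bound (quad_le habs) ?_
    rcases eq_or_ne t 0 with h | h
    · left; rw [h]; simp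
    · exact Or.inr h
  have h2 : (1 + Real.cos t) ^ (-(9 / 20) : ℝ) ≤ (2 / π ^ 2) ^ (-(9 / 20) : ℝ) *
      (|t - π| ^ (-(9 / 10) : ℝ) + |t - (-π)| ^ (-(9 / 10) : ℝ)) := by
    rcases le_total 0 t with h | h
    · have h3 : (1 + Real.cos t) ^ (-(9 / 20) : ℝ) ≤
          (2 / π ^ 2) ^ (-(9 / 20) : ℝ) * |t - π| ^ (-(9 / 10) : ℝ) := by
        have h4 : 1 + Real.cos t = 1 - Real.cos (t - π) := by rw [Real.cos_sub_pi]; ring
        refine rpow_bound (t := t - π) ?_ ?_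
        · rw [h4]
          exact quad_le (abs_le.2 ⟨by linarith, by linarith [ht.2]⟩)
        · rcases eq_or_ne (t - π) 0 with h5 | h5
          · left; rw [h4, h5]; simp
          · exact Or.inr h5
      refine h3.trans (mul_le_mul_of_nonneg_left ?_ hc0)
      have : 0 ≤ |t - (-π)| ^ (-(9 / 10) : ℝ) := Real.rpow_nonneg (abs_nonneg _) _
      linarith
    · have h3 : (1 + Real.cos t) ^ (-(9 / 20) : ℝ) ≤
          (2 / π ^ 2) ^ (-(9 / 20) : ℝ) * |t - (-π)| ^ (-(9 / 10) : ℝ) := by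
        have h4 : 1 + Real.cos t = 1 - Real.cos (t - (-π)) := by
          rw [sub_neg_eq_add, Real.cos_add_pi]; ring
        refine rpow_bound (t := t - (-π)) ?_ ?_
        · rw [h4]
          exact quad_le (abs_le.2 ⟨by linarith [ht.1], by linarith⟩)
        · rcases eq_or_ne (t - (-π)) 0 with h5 | h5
          · left; rw [h4, h5]; simp
          · exact Or.inr h5
      refine h3.trans (mul_le_mul_of_nonneg_left ?_ hc0)
      have : 0 ≤ |t - π| ^ (-(9 / 10) : ℝ) := Real.rpow_nonneg (abs_nonneg _) _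
      linarith
  linarith

lemma u_nonneg (t : ℝ) : 0 ≤ u t := by
  have h0 : 0 ≤ (1 - Real.cos t) ^ (-(9 / 20) : ℝ) :=
    Real.rpow_nonneg (by linarith [Real.cos_le_one t]) _
  have h0' : 0 ≤ (1 + Real.cos t) ^ (-(9 / 20) : ℝ) :=
    Real.rpow_nonneg (by linarith [Real.neg_one_le_cos t]) _
  unfold u
  linarith

lemma prod_u_integrable : Integrable (fun θ : Fin 4 → ℝ => ∏ i, u (θ i)) mu4 :=
  Integrable.fintype_prod fun _ => u_integrable

/-- The weighted inequality of the means. -/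
lemma amgm {x₀ x₁ x₂ x₃ y d : ℝ} (h₀ : 0 < x₀) (h₁ : 0 < x₁) (h₂ : 0 < x₂) (h₃ : 0 < x₃)
    (hy : 0 < y) (hd : 0 < d) :
    x₀ ^ (9 / 20 : ℝ) * y ^ (1 / 5 : ℝ) * x₁ ^ (9 / 20 : ℝ) * x₂ ^ (9 / 20 : ℝ) *
      x₃ ^ (9 / 20 : ℝ) * d ^ (2 / 5 : ℝ) ≤
      (x₀ + x₁ + x₂ + x₃) ^ 2 + d ^ 2 * (x₀ * y) := by
  have ha := Real.geom_mean_le_arith_mean4_weighted (w₁ := 5 / 32) (w₂ := 9 / 32) (w₃ := 9 / 32)
    (w₄ := 9 / 32) (by norm_num) (by norm_num) (by norm_num) (by norm_num)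
    (sq_nonneg x₀) (sq_nonneg x₁) (sq_nonneg x₂) (sq_nonneg x₃) (by norm_num)
  obtain ⟨m, hm⟩ : ∃ m : ℝ, m = (x₀ ^ 2) ^ (5 / 32 : ℝ) * (x₁ ^ 2) ^ (9 / 32 : ℝ) *
    (x₂ ^ 2) ^ (9 / 32 : ℝ) * (x₃ ^ 2) ^ (9 / 32 : ℝ) := ⟨_, rfl⟩
  rw [← hm] at ha
  have hmpos : 0 < m := by rw [hm]; positivity
  have hb := Real.geom_mean_le_arith_mean2_weighted (w₁ := 4 / 5) (w₂ := 1 / 5)
    (by norm_num) (by norm_num) hmpos.le
    (by positivity : (0:ℝ) ≤ d ^ 2 * (x₀ * y)) (by norm_num)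
  have hL : x₀ ^ (9 / 20 : ℝ) * y ^ (1 / 5 : ℝ) * x₁ ^ (9 / 20 : ℝ) * x₂ ^ (9 / 20 : ℝ) *
      x₃ ^ (9 / 20 : ℝ) * d ^ (2 / 5 : ℝ) = m ^ (4 / 5 : ℝ) * (d ^ 2 * (x₀ * y)) ^ (1 / 5 : ℝ) := by
    have e1 : ∀ {x : ℝ} {a : ℝ}, 0 < x → (x ^ 2) ^ a = x ^ (2 * a) := by
      intro x a hx
      rw [← Real.rpow_natCast, ← Real.rpow_mul hx.le]
      norm_num
    rw [hm, e1 h₀, e1 h₁, e1 h₂, e1 h₃]
    rw [Real.mul_rpow (by positivity) (by positivity), Real.mul_rpow (by positivity) (by positivity),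
      Real.mul_rpow (by positivity) (by positivity), Real.mul_rpow (by positivity) (by positivity),
      Real.mul_rpow h₀.le hy.le, e1 hd, ← Real.rpow_mul h₀.le, ← Real.rpow_mul h₁.le,
      ← Real.rpow_mul h₂.le, ← Real.rpow_mul h₃.le]
    have e2 : x₀ ^ (9 / 20 : ℝ) = x₀ ^ (2 * (5 / 32) * (4 / 5) : ℝ) * x₀ ^ (1 / 5 : ℝ) := by
      rw [← Real.rpow_add h₀]; norm_num
    rw [e2]
    norm_num
    ring
  rw [hL]
  refine hb.trans ?_
  have h5 : m ≤ (x₀ + x₁ + x₂ + x₃) ^ 2 := by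
    refine ha.trans ?_
    nlinarith [mul_pos h₀ h₁, mul_pos h₀ h₂, mul_pos h₀ h₃, mul_pos h₁ h₂, mul_pos h₁ h₃,
      mul_pos h₂ h₃, sq_nonneg x₀, sq_nonneg x₁, sq_nonneg x₂, sq_nonneg x₃]
  have h6 : 0 ≤ d ^ 2 * (x₀ * y) := by positivity
  have h7 : 0 ≤ (x₀ + x₁ + x₂ + x₃) ^ 2 := sq_nonneg _
  linarith

lemma u_ge_left {t : ℝ} : (1 - Real.cos t) ^ (-(9 / 20) : ℝ) ≤ u t := by
  have h0' : 0 ≤ (1 + Real.cos t) ^ (-(9 / 20) : ℝ) :=
    Real.rpow_nonneg (by linarith [Real.neg_one_le_cos t]) _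
  unfold u
  linarith

lemma u_ge_prod {t : ℝ} (hx : 0 < 1 - Real.cos t) (hy : 0 < 1 + Real.cos t) :
    (1 - Real.cos t) ^ (-(9 / 20) : ℝ) * (1 + Real.cos t) ^ (-(1 / 5) : ℝ) ≤ u t := by
  have h0 : 0 ≤ (1 - Real.cos t) ^ (-(9 / 20) : ℝ) := Real.rpow_nonneg hx.le _
  have h0' : 0 ≤ (1 + Real.cos t) ^ (-(9 / 20) : ℝ) := Real.rpow_nonneg hy.le _
  rcases le_total 1 (1 + Real.cos t) with h | h
  · have h1 : (1 + Real.cos t) ^ (-(1 / 5) : ℝ) ≤ 1 :=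
      Real.rpow_le_one_of_one_le_of_nonpos h (by norm_num)
    have h2 := mul_le_mul_of_nonneg_left h1 h0
    unfold u
    linarith
  · have h1 : (1 - Real.cos t) ^ (-(9 / 20) : ℝ) ≤ 1 :=
      Real.rpow_le_one_of_one_le_of_nonpos (by linarith) (by norm_num)
    have h2 : (1 + Real.cos t) ^ (-(1 / 5) : ℝ) ≤ (1 + Real.cos t) ^ (-(9 / 20) : ℝ) :=
      Real.rpow_le_rpow_of_exponent_ge hy h (by norm_num)
    have h3 := mul_le_mul h1 h2 (Real.rpow_nonneg hy.le _) zero_le_one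
    unfold u
    linarith

/-- The constant. -/
noncomputable def Cst : ℝ := 64 * (∫ θ, ∏ i, u (θ i) ∂mu4) / (2 * π) ^ 4 + 1

lemma Cst_pos : 0 < Cst := by
  unfold Cst
  have : 0 ≤ ∫ θ, ∏ i, u (θ i) ∂mu4 :=
    integral_nonneg fun θ => Finset.prod_nonneg fun i _ => u_nonneg _
  have := Real.pi_pos
  positivity

/-- The square sums of the Green functions with drift `δ / 4`. -/
theorem sqB {δ : ℝ} (h0 : 0 < δ) (h1 : |δ| < 1) :
    SqB (pD δ h1) (Cst * δ ^ (-(2 / 5) : ℝ)) := by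
  intro n
  have hpl := plancherel (gr (pD δ h1).1 n)
  have hae : ∀ᵐ θ ∂mu4, ‖LC (fun z => ch z θ) (gr (pD δ h1).1 n)‖ ^ 2 ≤
      64 * δ ^ (-(2 / 5) : ℝ) * ∏ i, u (θ i) := by
    filter_upwards [ae_good] with θ hθ
    rw [LC_ch_gr]
    obtain ⟨x₀, hx₀⟩ : ∃ x₀, x₀ = 1 - Real.cos (θ 0) := ⟨_, rfl⟩
    obtain ⟨x₁, hx₁⟩ : ∃ x₁, x₁ = 1 - Real.cos (θ 1) := ⟨_, rfl⟩
    obtain ⟨x₂, hx₂⟩ : ∃ x₂, x₂ = 1 - Real.cos (θ 2) := ⟨_, rfl⟩
    obtain ⟨x₃, hx₃⟩ : ∃ x₃, x₃ = 1 - Real.cos (θ 3) := ⟨_, rfl⟩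
    obtain ⟨y, hy⟩ : ∃ y, y = 1 + Real.cos (θ 0) := ⟨_, rfl⟩
    have p0 : 0 < x₀ := hx₀ ▸ (hθ 0).1
    have p1 : 0 < x₁ := hx₁ ▸ (hθ 1).1
    have p2 : 0 < x₂ := hx₂ ▸ (hθ 2).1
    have p3 : 0 < x₃ := hx₃ ▸ (hθ 3).1
    have py : 0 < y := hy ▸ (hθ 0).2
    have hsin : Real.sin (θ 0) ^ 2 = x₀ * y := by
      have := Real.sin_sq_add_cos_sq (θ 0)
      rw [hx₀, hy]
      linarith
    have hns : Complex.normSq (1 - phi (pD δ h1).1 θ) =
        1 / 16 * ((x₀ + x₁ + x₂ + x₃) ^ 2 + δ ^ 2 * (x₀ * y)) := by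
      rw [Complex.normSq_apply, Complex.sub_re, Complex.sub_im, Complex.one_re, Complex.one_im]
      have e1 : (phi (pD δ h1).1 θ).re = (1 / 4) * ∑ i, Real.cos (θ i) := phi_pd_re δ θ
      have e2 : (phi (pD δ h1).1 θ).im = δ / 4 * Real.sin (θ 0) := phi_pd_im δ θ
      rw [e1, e2, ← hsin, Fin.sum_univ_four, hx₀, hx₁, hx₂, hx₃]
      ring
    have hD := amgm p0 p1 p2 p3 py h0
    obtain ⟨D, hDdef⟩ : ∃ D : ℝ, D = x₀ ^ (9 / 20 : ℝ) * y ^ (1 / 5 : ℝ) * x₁ ^ (9 / 20 : ℝ) *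
      x₂ ^ (9 / 20 : ℝ) * x₃ ^ (9 / 20 : ℝ) * δ ^ (2 / 5 : ℝ) := ⟨_, rfl⟩
    rw [← hDdef] at hD
    have hDpos : 0 < D := by rw [hDdef]; positivity
    have hb := geom_bound (pD δ h1) θ n (D := D / 16) (by positivity) (by rw [hns]; linarith)
    refine hb.trans ?_
    have h2 : 4 / (D / 16) = 64 * δ ^ (-(2 / 5) : ℝ) * ((x₀ ^ (-(9 / 20) : ℝ) *
        y ^ (-(1 / 5) : ℝ)) * x₁ ^ (-(9 / 20) : ℝ) * x₂ ^ (-(9 / 20) : ℝ) *
        x₃ ^ (-(9 / 20) : ℝ)) := by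
      rw [hDdef, Real.rpow_neg h0.le, Real.rpow_neg p0.le, Real.rpow_neg py.le,
        Real.rpow_neg p1.le, Real.rpow_neg p2.le, Real.rpow_neg p3.le]
      field_simp
      norm_num
    rw [h2, Fin.prod_univ_four]
    refine mul_le_mul_of_nonneg_left ?_ (by positivity)
    have q0 : x₀ ^ (-(9 / 20) : ℝ) * y ^ (-(1 / 5) : ℝ) ≤ u (θ 0) := by
      rw [hx₀, hy]; exact u_ge_prod (hθ 0).1 (hθ 0).2
    have q1 : x₁ ^ (-(9 / 20) : ℝ) ≤ u (θ 1) := by rw [hx₁]; exact u_ge_left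
    have q2 : x₂ ^ (-(9 / 20) : ℝ) ≤ u (θ 2) := by rw [hx₂]; exact u_ge_left
    have q3 : x₃ ^ (-(9 / 20) : ℝ) ≤ u (θ 3) := by rw [hx₃]; exact u_ge_left
    have r1 : 0 ≤ x₁ ^ (-(9 / 20) : ℝ) := Real.rpow_nonneg p1.le _
    have r2 : 0 ≤ x₂ ^ (-(9 / 20) : ℝ) := Real.rpow_nonneg p2.le _
    have r3 : 0 ≤ x₃ ^ (-(9 / 20) : ℝ) := Real.rpow_nonneg p3.le _
    have s0 := u_nonneg (θ 0)
    have s1 := u_nonneg (θ 1)
    have s2 := u_nonneg (θ 2)
    exact mul_le_mul (mul_le_mul (mul_le_mul q0 q1 r1 s0) q2 r2 (by positivity)) q3 r3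
      (by positivity)
  have hint : Integrable (fun θ => ‖LC (fun z => ch z θ) (gr (pD δ h1).1 n)‖ ^ 2) mu4 := by
    have hcont : Continuous fun θ => ‖LC (fun z => ch z θ) (gr (pD δ h1).1 n)‖ ^ 2 := by
      simp only [LC_ch_gr]
      exact (continuous_norm.comp (continuous_finsetSum _ fun j _ =>
        (phi_continuous _).pow j)).pow 2
    refine Integrable.of_bound (C := (n : ℝ) ^ 2) hcont.aestronglyMeasurable
      (Filter.Eventually.of_forall fun θ => ?_)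
    rw [Real.norm_of_nonneg (sq_nonneg _), LC_ch_gr]
    have : ‖∑ j ∈ range n, phi (pD δ h1).1 θ ^ j‖ ≤ n := by
      refine (norm_sum_le _ _).trans ?_
      have h2 := Finset.sum_le_card_nsmul (range n) (fun j => ‖phi (pD δ h1).1 θ ^ j‖) 1
        fun j _ => by
          rw [norm_pow]
          exact pow_le_one₀ (norm_nonneg _) (phi_norm_le _ θ)
      simpa using h2
    exact pow_le_pow_left₀ (norm_nonneg _) this 2
  have hle := integral_mono_ae hint (prod_u_integrable.const_mul (64 * δ ^ (-(2 / 5) : ℝ))) hae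
  rw [hpl, integral_const_mul] at hle
  have hpi := Real.pi_pos
  have h4 : (0:ℝ) < (2 * π) ^ 4 := by positivity
  have hd : 0 < δ ^ (-(2 / 5) : ℝ) := Real.rpow_pos_of_pos h0 _
  have h5 : ∑ z ∈ (gr (pD δ h1).1 n).support, (gr (pD δ h1).1 n z) ^ 2 ≤
      64 * (∫ θ, ∏ i, u (θ i) ∂mu4) / (2 * π) ^ 4 * δ ^ (-(2 / 5) : ℝ) := by
    rw [div_mul_eq_mul_div, le_div_iff₀ h4]
    linarith
  refine h5.trans ?_
  unfold Cst
  nlinarith

lemma pm_tendsto (w : Z4) :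
    Tendsto (fun n => pm (pd 0) n w) atTop (𝓝 0) := by
  have hp0 : |(0:ℝ)| < 1 := by norm_num
  have hpi := Real.pi_pos
  have h4 : (0:ℝ) < (2 * π) ^ 4 := by positivity
  have hlim : Tendsto (fun n : ℕ => ∫ θ, ‖phi (pd 0) θ‖ ^ (2 * n) ∂mu4) atTop (𝓝 0) := by
    have h1 : Tendsto (fun n : ℕ => ∫ θ, ‖phi (pd 0) θ‖ ^ (2 * n) ∂mu4) atTop
        (𝓝 (∫ _, (0:ℝ) ∂mu4)) := by
      refine tendsto_integral_of_dominated_convergence (fun _ => (1:ℝ)) ?_ (integrable_const _) ?_ ?_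
      · intro n
        exact ((continuous_norm.comp (phi_continuous _)).pow (2 * n)).aestronglyMeasurable
      · intro n
        refine Filter.Eventually.of_forall fun θ => ?_
        rw [Real.norm_of_nonneg (by positivity)]
        exact pow_le_one₀ (norm_nonneg _) (phi_norm_le (pD 0 hp0) θ)
      · filter_upwards [ae_good] with θ hθ
        have h2 : ‖phi (pd 0) θ‖ < 1 := by
          have him : (phi (pd 0) θ).im = 0 := by rw [phi_pd_im]; ring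
          have hre := phi_pd_re 0 θ
          have h3 : ‖phi (pd 0) θ‖ = |(phi (pd 0) θ).re| := by
            have : phi (pd 0) θ = (((phi (pd 0) θ).re : ℝ) : ℂ) :=
              Complex.ext (by simp) (by simp [him])
            rw [this, Complex.norm_real, Real.norm_eq_abs, Complex.ofReal_re]
          rw [h3, hre, Fin.sum_univ_four, abs_lt]
          have a0 := hθ 0
          have a1 := hθ 1
          have a2 := hθ 2
          have a3 := hθ 3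
          constructor <;> linarith [a0.1, a0.2, a1.1, a1.2, a2.1, a2.2, a3.1, a3.2]
        have h3 : Tendsto (fun n : ℕ => ‖phi (pd 0) θ‖ ^ n) atTop (𝓝 0) :=
          tendsto_pow_atTop_nhds_zero_of_lt_one (norm_nonneg _) h2
        exact h3.comp (tendsto_id.const_mul_atTop' (by norm_num))
    simpa using h1
  have hsq : Tendsto (fun n => (pm (pd 0) n w) ^ 2) atTop (𝓝 0) := by
    have hub : Tendsto (fun n : ℕ => (∫ θ, ‖phi (pd 0) θ‖ ^ (2 * n) ∂mu4) / (2 * π) ^ 4) atTop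
        (𝓝 0) := by
      simpa using hlim.div_const ((2 * π) ^ 4)
    refine tendsto_of_tendsto_of_tendsto_of_le_of_le tendsto_const_nhds hub
      (fun n => sq_nonneg _) fun n => ?_
    have hpl := plancherel (pm (pd 0) n)
    simp only [LC_ch_pm] at hpl
    rw [le_div_iff₀ h4]
    have h5 : (pm (pd 0) n w) ^ 2 ≤ ∑ z ∈ (pm (pd 0) n).support, (pm (pd 0) n z) ^ 2 := by
      by_cases hw : w ∈ (pm (pd 0) n).support
      · exact Finset.single_le_sum (f := fun z => (pm (pd 0) n z) ^ 2) (fun z _ => sq_nonneg _) hw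
      · rw [Finsupp.notMem_support_iff.1 hw]
        simpa using Finset.sum_nonneg fun z _ => sq_nonneg _
    have h6 : ∫ θ, ‖phi (pd 0) θ‖ ^ (2 * n) ∂mu4 = ∫ θ, ‖phi (pd 0) θ ^ n‖ ^ 2 ∂mu4 := by
      congr 1
      funext θ
      rw [norm_pow, ← pow_mul, mul_comm]
    rw [h6, hpl]
    have := mul_le_mul_of_nonneg_left h5 h4.le
    linarith
  have := (Real.continuous_sqrt.tendsto 0).comp hsq
  rw [Real.sqrt_zero] at this
  rw [tendsto_zero_iff_abs_tendsto_zero]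
  refine this.congr fun n => ?_
  simp only [Function.comp]
  rw [Real.sqrt_sq_eq_abs]

end Pool.Agent.H77RW
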