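import Pool.Agent.H77RW.Walk

open MeasureTheory Finset Filter
open scoped ENNReal BigOperators Topology

namespace Pool.Agent.H77RW

/-- The probability that the walk started at `x` never is in `A` at the times `m ≥ 1`. -/
noncomputable def esc (p : Delta) (A : Finset Z4) (x : Z4) : ℝ :=
  (walk p).real {ω | ∀ m, 1 ≤ m → x + X m ω ∉ A}

/-- The capacity of a finite set. -/
noncomputable def Cap (p : Delta) (A : Finset Z4) : ℝ := ∑ x ∈ A, esc p A x

/-- The range `{X_0, …, X_n}`. -/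
def R (n : ℕ) (ω : ℕ → Step) : Finset Z4 := (range (n + 1)).image fun i => X i ω

/-- The probability of a visit of `A` at some time at least `n`. -/
noncomputable def H (p : Delta) (A : Finset Z4) (n : ℕ) (x : Z4) : ℝ :=
  (walk p).real {ω | ∃ m, n ≤ m ∧ x + X m ω ∈ A}

lemma meas_mem (A : Finset Z4) (x : Z4) (m : ℕ) : MeasurableSet {ω | x + X m ω ∈ A} :=
  measurableSet_setOfPred.2 ((dep_X m).comp (fun z => x + z ∈ A)).measurable

lemma meas_H (A : Finset Z4) (x : Z4) (n : ℕ) :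
    MeasurableSet {ω | ∃ m, n ≤ m ∧ x + X m ω ∈ A} := by
  have : {ω : ℕ → Step | ∃ m, n ≤ m ∧ x + X m ω ∈ A} =
      ⋃ m, ⋃ _ : n ≤ m, {ω | x + X m ω ∈ A} := by
    ext ω; simp
  rw [this]
  exact MeasurableSet.iUnion fun m => MeasurableSet.iUnion fun _ => meas_mem A x m

lemma H_nonneg (p : Delta) (A : Finset Z4) (n : ℕ) (x : Z4) : 0 ≤ H p A n x := measureReal_nonneg

lemma H_le_one (p : Delta) (A : Finset Z4) (n : ℕ) (x : Z4) : H p A n x ≤ 1 :=
  measureReal_le_one

lemma esc_nonneg (p : Delta) (A : Finset Z4) (x : Z4) : 0 ≤ esc p A x := measureReal_nonneg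

lemma esc_le_one (p : Delta) (A : Finset Z4) (x : Z4) : esc p A x ≤ 1 := measureReal_le_one

lemma Cap_nonneg (p : Delta) (A : Finset Z4) : 0 ≤ Cap p A :=
  Finset.sum_nonneg fun x _ => esc_nonneg p A x

lemma Cap_le_card (p : Delta) (A : Finset Z4) : Cap p A ≤ A.card := by
  have := Finset.sum_le_card_nsmul A (esc p A) 1 fun x _ => esc_le_one p A x
  simpa [Cap] using this

lemma H_succ (p : Delta) (A : Finset Z4) (n : ℕ) (x : Z4) :
    H p A (n + 1) x = ∑ s, p.1 s * H p A n (x + vec s) := by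
  rw [H, real_step p (meas_H A x (n + 1))]
  refine Finset.sum_congr rfl fun s _ => ?_
  congr 1
  rw [H]
  congr 1
  ext ω
  simp only [Set.mem_preimage, Set.mem_ofPred_eq]
  constructor
  · rintro ⟨m, hm, h⟩
    obtain ⟨m, rfl⟩ : ∃ k, m = k + 1 := ⟨m - 1, by omega⟩
    rw [X_cons, ← add_assoc] at h
    exact ⟨m, by omega, h⟩
  · rintro ⟨m, hm, h⟩
    refine ⟨m + 1, by omega, ?_⟩
    rw [X_cons, ← add_assoc]
    exact h

lemma esc_eq (p : Delta) (A : Finset Z4) (x : Z4) : esc p A x = 1 - H p A 1 x := by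
  rw [H, ← probReal_compl_eq_one_sub (meas_H A x 1), esc]
  congr 1
  ext ω
  simp

lemma H_zero_sub (p : Delta) (A : Finset Z4) (x : Z4) :
    H p A 0 x - H p A 1 x = if x ∈ A then esc p A x else 0 := by
  split_ifs with h
  · rw [esc_eq]
    congr 1
    have : {ω : ℕ → Step | ∃ m, 0 ≤ m ∧ x + X m ω ∈ A} = Set.univ := by
      ext ω
      simp only [Set.mem_ofPred_eq, Set.mem_univ, iff_true]
      exact ⟨0, le_rfl, by simpa [X_zero] using h⟩
    rw [H, this]
    simp
  · rw [sub_eq_zero, H, H]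
    congr 1
    ext ω
    simp only [Set.mem_ofPred_eq]
    constructor
    · rintro ⟨m, -, hm⟩
      refine ⟨m, ?_, hm⟩
      rcases Nat.eq_zero_or_pos m with rfl | h1
      · exact absurd (by simpa [X_zero] using hm) h
      · exact h1
    · rintro ⟨m, -, hm⟩
      exact ⟨m, Nat.zero_le _, hm⟩

lemma H_sub (p : Delta) (A : Finset Z4) (j : ℕ) (x : Z4) :
    H p A j x - H p A (j + 1) x = ∑ y ∈ A, pm p.1 j (y - x) * esc p A y := by
  induction j generalizing x with
  | zero =>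
    rw [zero_add, H_zero_sub]
    simp only [pm_zero_apply, sub_eq_zero, ite_mul, one_mul, zero_mul]
    rw [Finset.sum_ite_eq' A x]
  | succ j ih =>
    rw [H_succ, H_succ, ← Finset.sum_sub_distrib]
    simp only [← mul_sub, ih, pm_apply_succ, Finset.sum_mul, Finset.mul_sum]
    rw [Finset.sum_comm]
    refine Finset.sum_congr rfl fun y _ => Finset.sum_congr rfl fun s _ => ?_
    rw [← mul_assoc, sub_sub]

/-- Green function up to time `n`. -/
noncomputable def gr (p : Step → ℝ) (n : ℕ) : Z4 →₀ ℝ := ∑ j ∈ range n, pm p j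

lemma gr_apply (p : Step → ℝ) (n : ℕ) (z : Z4) : gr p n z = ∑ j ∈ range n, pm p j z := by
  simp [gr]

lemma gr_nonneg (p : Delta) (n : ℕ) (z : Z4) : 0 ≤ gr p.1 n z := by
  rw [gr_apply]
  exact Finset.sum_nonneg fun j _ => pm_nonneg (fun s => (p.2.1 s).le) j z

lemma sum_gr (p : Delta) (A : Finset Z4) (n : ℕ) (x : Z4) :
    ∑ y ∈ A, gr p.1 n (y - x) * esc p A y = H p A 0 x - H p A n x := by
  have h : ∀ n, H p A 0 x - H p A n x =
      ∑ j ∈ range n, ∑ y ∈ A, pm p.1 j (y - x) * esc p A y := by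
    intro n
    induction n with
    | zero => simp
    | succ n ih =>
      rw [Finset.sum_range_succ, ← ih, ← H_sub]
      ring
  rw [h, Finset.sum_comm]
  refine Finset.sum_congr rfl fun y _ => ?_
  rw [gr_apply, Finset.sum_mul]

lemma sum_gr_le (p : Delta) (A : Finset Z4) (n : ℕ) (x : Z4) :
    ∑ y ∈ A, gr p.1 n (y - x) * esc p A y ≤ 1 := by
  rw [sum_gr]
  linarith [H_nonneg p A n x, H_le_one p A 0 x]

/-- The square sums of the Green functions are at most `B`. -/
def SqB (p : Delta) (B : ℝ) : Prop := ∀ n, ∑ z ∈ (gr p.1 n).support, (gr p.1 n z) ^ 2 ≤ B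

lemma SqB.le {p : Delta} {B : ℝ} (h : SqB p B) (n : ℕ) (S : Finset Z4) :
    ∑ z ∈ S, (gr p.1 n z) ^ 2 ≤ B := by
  classical
  refine le_trans ?_ (h n)
  have h1 : ∑ z ∈ S, (gr p.1 n z) ^ 2 = ∑ z ∈ S.filter (fun z => z ∈ (gr p.1 n).support),
      (gr p.1 n z) ^ 2 := by
    rw [Finset.sum_filter]
    refine Finset.sum_congr rfl fun z _ => ?_
    split_ifs with hz
    · rfl
    · rw [Finsupp.notMem_support_iff.1 hz]; norm_num
  rw [h1]
  exact Finset.sum_le_sum_of_subset_of_nonneg (fun z hz => (Finset.mem_filter.1 hz).2)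
    fun z _ _ => sq_nonneg _

lemma SqB.gr_le {p : Delta} {B : ℝ} (h : SqB p B) (n : ℕ) (z : Z4) : gr p.1 n z ≤ √B := by
  have := h.le n {z}
  rw [Finset.sum_singleton] at this
  exact Real.le_sqrt_of_sq_le this

lemma SqB.summable {p : Delta} {B : ℝ} (h : SqB p B) (z : Z4) :
    Summable fun j => pm p.1 j z := by
  refine summable_of_sum_range_le (c := √B) (fun j => pm_nonneg (fun s => (p.2.1 s).le) j z) ?_
  intro n
  rw [← gr_apply]
  exact h.gr_le n z

/-- The Green function. -/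
noncomputable def G (p : Delta) (z : Z4) : ℝ := ∑' j, pm p.1 j z

lemma SqB.tendsto_gr {p : Delta} {B : ℝ} (h : SqB p B) (z : Z4) :
    Tendsto (fun n => gr p.1 n z) atTop (𝓝 (G p z)) := by
  simp only [gr_apply]
  exact (h.summable z).hasSum.tendsto_sum_nat

lemma SqB.G_sq {p : Delta} {B : ℝ} (h : SqB p B) (S : Finset Z4) : ∑ z ∈ S, (G p z) ^ 2 ≤ B := by
  have : Tendsto (fun n => ∑ z ∈ S, (gr p.1 n z) ^ 2) atTop (𝓝 (∑ z ∈ S, (G p z) ^ 2)) :=
    tendsto_finsetSum S fun z _ => (h.tendsto_gr z).pow 2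
  exact le_of_tendsto' this fun n => h.le n S

lemma G_nonneg (p : Delta) (z : Z4) : 0 ≤ G p z :=
  tsum_nonneg fun j => pm_nonneg (fun s => (p.2.1 s).le) j z

lemma real_mem (p : Delta) (A : Finset Z4) (x : Z4) (m : ℕ) :
    (walk p).real {ω | x + X m ω ∈ A} = ∑ y ∈ A, pm p.1 m (y - x) := by
  classical
  have h1 : (walk p).real {ω | x + X m ω ∈ A} =
      ∫ ω, (if x + X m ω ∈ A then (1:ℝ) else 0) ∂(walk p) := by
    rw [← integral_indicator_one (meas_mem A x m)]
    congr 1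
    funext ω
    simp [Set.indicator]
  rw [h1, integral_X p (fun z => if z ∈ A then (1:ℝ) else 0) m x, LC_def]
  have h2 : ∀ z, (if x + z ∈ A then (1:ℝ) else 0) = ∑ y ∈ A, if z = y - x then (1:ℝ) else 0 := by
    intro z
    have : ∀ y, (z = y - x) = (y = x + z) := fun y =>
      propext ⟨fun h => by rw [h]; abel, fun h => by rw [h]; abel⟩
    simp only [this]
    rw [Finset.sum_ite_eq' A (x + z)]
  simp only [h2, Finset.mul_sum]
  rw [Finset.sum_comm]
  refine Finset.sum_congr rfl fun y _ => ?_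
  rw [← LC_def (fun z => if z = y - x then (1:ℝ) else 0), LC_indicator]

lemma SqB.tendsto_H {p : Delta} {B : ℝ} (h : SqB p B) (A : Finset Z4) (x : Z4) :
    Tendsto (fun n => H p A n x) atTop (𝓝 0) := by
  have hsum : Summable fun m => ∑ y ∈ A, pm p.1 m (y - x) :=
    summable_sum fun y _ => h.summable (y - x)
  have hne : ∑' m, (walk p) {ω | x + X m ω ∈ A} ≠ ∞ := by
    have : (fun m => (walk p) {ω | x + X m ω ∈ A}) =
        fun m => ENNReal.ofReal (∑ y ∈ A, pm p.1 m (y - x)) := by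
      funext m
      rw [← real_mem, Measure.real, ENNReal.ofReal_toReal (measure_ne_top _ _)]
    rw [this]
    exact hsum.tsum_ofReal_ne_top
  have ht := ENNReal.tendsto_sum_nat_add _ hne
  have hle : ∀ n, (walk p) {ω | ∃ m, n ≤ m ∧ x + X m ω ∈ A} ≤
      ∑' k, (walk p) {ω | x + X (k + n) ω ∈ A} := by
    intro n
    refine le_trans (measure_mono ?_) (measure_iUnion_le _)
    rintro ω ⟨m, hm, h⟩
    simp only [Set.mem_iUnion, Set.mem_ofPred_eq]
    exact ⟨m - n, by rw [Nat.sub_add_cancel hm]; exact h⟩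
  have h0 : Tendsto (fun n => (walk p) {ω | ∃ m, n ≤ m ∧ x + X m ω ∈ A}) atTop (𝓝 0) :=
    tendsto_of_tendsto_of_tendsto_of_le_of_le tendsto_const_nhds ht (fun _ => zero_le) hle
  have := (ENNReal.tendsto_toReal ENNReal.zero_ne_top).comp h0
  rw [ENNReal.toReal_zero] at this
  exact this

lemma SqB.identity {p : Delta} {B : ℝ} (h : SqB p B) (A : Finset Z4) {x : Z4} (hx : x ∈ A) :
    ∑ y ∈ A, G p (y - x) * esc p A y = 1 := by
  have h1 : Tendsto (fun n => ∑ y ∈ A, gr p.1 n (y - x) * esc p A y) atTop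
      (𝓝 (∑ y ∈ A, G p (y - x) * esc p A y)) :=
    tendsto_finsetSum A fun y _ => (h.tendsto_gr (y - x)).mul_const _
  have h2 : Tendsto (fun n => H p A 0 x - H p A n x) atTop (𝓝 (1 - 0)) := by
    have h3 : H p A 0 x = 1 := by
      have := H_zero_sub p A x
      rw [if_pos hx, esc_eq] at this
      linarith
    rw [h3]
    exact (tendsto_const_nhds).sub (h.tendsto_H A x)
  rw [sub_zero] at h2
  refine tendsto_nhds_unique h1 ?_
  simpa only [sum_gr] using h2

/-- Cauchy–Schwarz for the Green potential. -/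
lemma LC_le (g : Z4 →₀ ℝ) {F : Z4 → ℝ} {B : ℝ} (hB : 0 ≤ B)
    (hg : ∑ z ∈ g.support, (g z) ^ 2 ≤ B) (hF : ∀ S : Finset Z4, ∑ z ∈ S, (F z) ^ 2 ≤ B)
    (y : Z4) : LC (fun z => F (y + z)) g ≤ B := by
  rw [LC_def]
  have h1 := Finset.sum_mul_sq_le_sq_mul_sq g.support g fun z => F (y + z)
  have h2 : ∑ z ∈ g.support, (F (y + z)) ^ 2 ≤ B := by
    have := hF (g.support.map (addLeftEmbedding y))
    rw [Finset.sum_map] at this
    simpa using this
  have h3 : (∑ z ∈ g.support, g z * F (y + z)) ^ 2 ≤ B ^ 2 := by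
    refine h1.trans ?_
    rw [sq B]
    exact mul_le_mul hg h2 (Finset.sum_nonneg fun _ _ => sq_nonneg _) hB
  exact (abs_le_of_sq_le_sq' h3 hB).2

lemma LC_two (g : Z4 →₀ ℝ) (hg0 : ∀ z, 0 ≤ g z) {F : Z4 → ℝ} {B : ℝ} (hB : 0 ≤ B)
    (hF0 : ∀ z, 0 ≤ F z)
    (hg : ∑ z ∈ g.support, (g z) ^ 2 ≤ B) (hF : ∀ S : Finset Z4, ∑ z ∈ S, (F z) ^ 2 ≤ B) :
    LC (fun y => LC (fun z => F y * F (y + z)) g) g ≤ B ^ 2 := by
  have h1 : ∀ y, LC (fun z => F y * F (y + z)) g ≤ B * F y := by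
    intro y
    rw [LC_smul_fun, mul_comm]
    exact mul_le_mul_of_nonneg_right (LC_le g hB hg hF y) (hF0 y)
  refine (LC_mono hg0 h1).trans ?_
  rw [LC_smul_fun, sq]
  refine mul_le_mul_of_nonneg_left ?_ hB
  have := LC_le g hB hg hF 0
  simpa using this

lemma LC_two' (g : Z4 →₀ ℝ) (hg0 : ∀ z, 0 ≤ g z) {F : Z4 → ℝ} {B : ℝ} (hB : 0 ≤ B)
    (hF0 : ∀ z, 0 ≤ F z)
    (hg : ∑ z ∈ g.support, (g z) ^ 2 ≤ B) (hF : ∀ S : Finset Z4, ∑ z ∈ S, (F z) ^ 2 ≤ B) :
    LC (fun y => LC (fun z => F (y + z) * F z) g) g ≤ B ^ 2 := by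
  have : LC (fun y => LC (fun z => F (y + z) * F z) g) g =
      LC (fun y => LC (fun z => F y * F (y + z)) g) g := by
    simp only [LC_def, Finset.mul_sum]
    rw [Finset.sum_comm]
    refine Finset.sum_congr rfl fun z _ => Finset.sum_congr rfl fun y _ => ?_
    rw [add_comm z y]
    ring
  rw [this]
  exact LC_two g hg0 hB hF0 hg hF

lemma sq_sum_le (a : ℕ → ℝ) (n : ℕ) :
    (∑ i ∈ range n, a i) ^ 2 ≤ 2 * ∑ l ∈ range n, ∑ i ∈ range (l + 1), a i * a l := by
  induction n with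
  | zero => simp
  | succ n ih =>
    rw [Finset.sum_range_succ, Finset.sum_range_succ (n := n) (f := fun l => ∑ i ∈ range (l + 1), a i * a l),
      Finset.sum_range_succ (n := n) (f := fun i => a i * a n), ← Finset.sum_mul]
    nlinarith [sq_nonneg (a n)]

lemma LC_fun_sum {ι : Type*} (S : Finset ι) (F : ι → Z4 → ℝ) (f : Z4 →₀ ℝ) :
    LC (fun z => ∑ i ∈ S, F i z) f = ∑ i ∈ S, LC (F i) f := by
  simp only [LC_def, Finset.mul_sum]
  rw [Finset.sum_comm]

lemma LC_nonneg {F : Z4 → ℝ} {f : Z4 →₀ ℝ} (hf : ∀ z, 0 ≤ f z) (h : ∀ z, 0 ≤ F z) :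
    0 ≤ LC F f := by
  rw [LC_def]
  exact Finset.sum_nonneg fun z _ => mul_nonneg (hf z) (h z)

/-- The second forward moment. -/
lemma forward_sq {p : Delta} {B : ℝ} (h : SqB p B) {F : Z4 → ℝ} (hF0 : ∀ z, 0 ≤ F z)
    (hF : ∀ S : Finset Z4, ∑ z ∈ S, (F z) ^ 2 ≤ B) (n : ℕ) :
    ∫ ω, (∑ i ∈ range n, F (X i ω)) ^ 2 ∂(walk p) ≤ 2 * B ^ 2 := by
  have hB : 0 ≤ B := by simpa using hF ∅
  have hpn : ∀ j z, 0 ≤ pm p.1 j z := fun j z => pm_nonneg (fun s => (p.2.1 s).le) j z
  have hdep : ∀ l i, i ≤ l → Dep l fun ω => F (X i ω) * F (X l ω) := fun l i hil =>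
    ((dep_X i).mono hil).comp₂ (dep_X l) fun a b => F a * F b
  have hdepn : ∀ l, l ∈ range n → ∀ i, i ∈ range (l + 1) →
      Dep n fun ω => F (X i ω) * F (X l ω) := fun l hl i hi =>
    (hdep l i (by rw [Finset.mem_range] at hi; omega)).mono (Finset.mem_range.1 hl).le
  have hd1 : Dep n fun ω => ∑ i ∈ range n, F (X i ω) :=
    Dep.sum fun i hi => ((dep_X i).comp F).mono (Finset.mem_range.1 hi).le
  have hd2 : Dep n fun ω => ∑ l ∈ range n, ∑ i ∈ range (l + 1), F (X i ω) * F (X l ω) :=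
    Dep.sum fun l hl => Dep.sum fun i hi => hdepn l hl i hi
  calc ∫ ω, (∑ i ∈ range n, F (X i ω)) ^ 2 ∂(walk p)
      ≤ ∫ ω, 2 * ∑ l ∈ range n, ∑ i ∈ range (l + 1), F (X i ω) * F (X l ω) ∂(walk p) :=
        integral_mono ((hd1.comp fun x => x ^ 2).integrable p)
          ((hd2.comp fun x => 2 * x).integrable p) fun ω => sq_sum_le (fun i => F (X i ω)) n
    _ = 2 * ∑ l ∈ range n, ∑ i ∈ range (l + 1), ∫ ω, F (X i ω) * F (X l ω) ∂(walk p) := by
        rw [integral_const_mul, integral_finsetSum]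
        · congr 1
          refine Finset.sum_congr rfl fun l hl => ?_
          rw [integral_finsetSum]
          intro i hi
          exact (hdepn l hl i hi).integrable p
        · intro l hl
          exact (Dep.sum fun i hi => hdepn l hl i hi).integrable p
    _ = 2 * ∑ l ∈ range n, ∑ i ∈ range (l + 1),
          LC (fun y => LC (fun z => F y * F (y + z)) (pm p.1 (l - i))) (pm p.1 i) := by
        congr 1
        refine Finset.sum_congr rfl fun l hl => Finset.sum_congr rfl fun i hi => ?_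
        have hil : i ≤ l := by rw [Finset.mem_range] at hi; omega
        have := integral_two p (fun y z => F y * F (y + z)) i (l - i) 0
        simp only [zero_add, Nat.add_sub_cancel' hil, add_sub_cancel] at this
        exact this
    _ ≤ 2 * ∑ i ∈ range n, ∑ j ∈ range n,
          LC (fun y => LC (fun z => F y * F (y + z)) (pm p.1 j)) (pm p.1 i) := by
        refine mul_le_mul_of_nonneg_left ?_ (by norm_num)
        have hcomm := Finset.sum_Ico_Ico_comm 0 n (fun i l =>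
          LC (fun y => LC (fun z => F y * F (y + z)) (pm p.1 (l - i))) (pm p.1 i))
        simp only [← Finset.range_eq_Ico] at hcomm
        rw [← hcomm]
        refine Finset.sum_le_sum fun i hi => ?_
        rw [Finset.sum_Ico_eq_sum_range]
        simp only [Nat.add_sub_cancel_left]
        refine Finset.sum_le_sum_of_subset_of_nonneg
          (Finset.range_subset_range.2 (Nat.sub_le _ _)) fun j _ _ => ?_
        exact LC_nonneg (hpn i) fun y => LC_nonneg (hpn j) fun z => mul_nonneg (hF0 _) (hF0 _)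
    _ = 2 * LC (fun y => LC (fun z => F y * F (y + z)) (gr p.1 n)) (gr p.1 n) := by
        congr 1
        rw [gr, LC_sum]
        refine Finset.sum_congr rfl fun i _ => ?_
        rw [← LC_fun_sum]
        congr 1
        funext y
        rw [LC_sum]
    _ ≤ 2 * B ^ 2 := by
        refine mul_le_mul_of_nonneg_left ?_ (by norm_num)
        exact LC_two _ (gr_nonneg p n) hB hF0 (h n) hF

end Pool.Agent.H77RW
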