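import Pool.Agent.H77RW.Green
import Pool.Agent.H77RW.Bound

open MeasureTheory Finset Filter
open scoped ENNReal BigOperators Topology Real

namespace Pool.Agent.H77RW

/-- The asymptotic capacity of the range: the limit of `E[Cap(R_n)] / n`. -/
noncomputable def asympCap (p : Delta) : ℝ :=
  limUnder atTop fun n : ℕ => (∫ ω, Cap p (R n ω) ∂(walk p)) / n

/-- The seven free coordinates: all the steps but `(3, false)`. -/
abbrev Coord : Type := {s : Step // s ≠ ((3 : Fin 4), false)}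

/-- The vector with sum `1` that has the given free coordinates. -/
noncomputable def full (x : Coord → ℝ) : Step → ℝ := fun s =>
  if h : s = ((3 : Fin 4), false) then 1 - ∑ t, x t else x ⟨s, h⟩

/-- `c` is real-analytic at `p`: near `p` it equals a convergent power series in the seven free
coordinates. -/
def RealAnalyticAt (c : Delta → ℝ) (p : Delta) : Prop :=
  ∃ F : (Coord → ℝ) → ℝ, AnalyticAt ℝ F (fun t => p.1 t.1) ∧
    ∀ᶠ x in 𝓝 (fun t : Coord => p.1 t.1),
      ∀ h : (∀ s, 0 < full x s) ∧ ∑ s, full x s = 1, F x = c ⟨full x, h⟩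

/-- The simple random walk: all eight steps have probability `1 / 8`. -/
noncomputable def unif : Delta := ⟨fun _ => 1 / 8, fun _ => by norm_num, by simp⟩

lemma esc_mono (p : Delta) {A B : Finset Z4} (h : A ⊆ B) (x : Z4) : esc p B x ≤ esc p A x := by
  refine measureReal_mono ?_ (measure_ne_top _ _)
  intro ω hω m hm hA
  exact hω m hm (h hA)

lemma Cap_union (p : Delta) (A B : Finset Z4) : Cap p (A ∪ B) ≤ Cap p A + Cap p B := by
  have h1 := Finset.sum_union_inter (s₁ := A) (s₂ := B) (f := esc p (A ∪ B))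
  have h2 : 0 ≤ ∑ x ∈ A ∩ B, esc p (A ∪ B) x := Finset.sum_nonneg fun x _ => esc_nonneg p _ x
  have h3 : ∑ x ∈ A, esc p (A ∪ B) x ≤ Cap p A :=
    Finset.sum_le_sum fun x _ => esc_mono p Finset.subset_union_left x
  have h4 : ∑ x ∈ B, esc p (A ∪ B) x ≤ Cap p B :=
    Finset.sum_le_sum fun x _ => esc_mono p Finset.subset_union_right x
  rw [Cap]
  linarith

lemma Cap_translate (p : Delta) (A : Finset Z4) (z : Z4) :
    Cap p (A.map (addLeftEmbedding z)) = Cap p A := by
  rw [Cap, Cap, Finset.sum_map]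
  refine Finset.sum_congr rfl fun x _ => ?_
  rw [esc, esc]
  congr 1
  ext ω
  simp only [addLeftEmbedding_apply, Set.mem_ofPred_eq, Finset.mem_map, add_assoc,
    add_right_inj, exists_eq_right]

lemma R_add (n m : ℕ) (ω : ℕ → Step) :
    R (n + m) ω = R n ω ∪ (R m (fun i => ω (n + i))).map (addLeftEmbedding (X n ω)) := by
  ext y
  simp only [R, Finset.mem_image, Finset.mem_range, Finset.mem_union, Finset.mem_map,
    addLeftEmbedding_apply, exists_exists_and_eq_and, X_shift, add_sub_cancel]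
  constructor
  · rintro ⟨i, hi, rfl⟩
    by_cases h : i < n + 1
    · exact Or.inl ⟨i, h, rfl⟩
    · refine Or.inr ⟨i - n, by omega, ?_⟩
      rw [show n + (i - n) = i by omega]
  · rintro (⟨i, hi, rfl⟩ | ⟨i, hi, rfl⟩)
    · exact ⟨i, by omega, rfl⟩
    · exact ⟨n + i, by omega, rfl⟩

lemma dep_Cap (p : Delta) (N : ℕ) : Dep N fun ω => Cap p (R N ω) := (dep_R N).comp (Cap p)

lemma subadd (p : Delta) : Subadditive fun n : ℕ => ∫ ω, Cap p (R n ω) ∂(walk p) := by
  intro n m
  have h1 : ∀ ω, Cap p (R (n + m) ω) ≤ Cap p (R n ω) + Cap p (R m fun i => ω (n + i)) := by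
    intro ω
    rw [R_add]
    refine (Cap_union p _ _).trans ?_
    rw [Cap_translate]
  have hd : Dep (n + m) fun ω : ℕ → Step => Cap p (R m fun i => ω (n + i)) := by
    intro ω ω' hω
    exact dep_Cap p m _ _ fun i hi => hω _ (by omega)
  have h2 := integral_mono ((dep_Cap p (n + m)).integrable p)
    (((dep_Cap p n).integrable p).add (hd.integrable p)) h1
  simp only [Pi.add_apply] at h2
  rw [integral_add ((dep_Cap p n).integrable p) (hd.integrable p),
    integral_shift p (dep_Cap p m) n] at h2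
  exact h2

lemma card_R_le (n : ℕ) (ω : ℕ → Step) : ((R n ω).card : ℝ) ≤ n + 1 := by
  have := Finset.card_image_le (s := range (n + 1)) (f := fun i => X i ω)
  rw [Finset.card_range] at this
  exact_mod_cast this

lemma tendsto_asympCap (p : Delta) :
    Tendsto (fun n : ℕ => (∫ ω, Cap p (R n ω) ∂(walk p)) / n) atTop (𝓝 (asympCap p)) := by
  have hb : BddBelow (Set.range fun n : ℕ => (∫ ω, Cap p (R n ω) ∂(walk p)) / n) := by
    refine ⟨0, ?_⟩
    rintro _ ⟨n, rfl⟩
    exact div_nonneg (integral_nonneg fun ω => Cap_nonneg p _) (Nat.cast_nonneg n)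
  exact tendsto_nhds_limUnder ⟨_, (subadd p).tendsto_lim hb⟩

lemma asympCap_of_ae (p : Delta) (L : ℝ)
    (h : ∀ᵐ ω ∂(walk p), Tendsto (fun n : ℕ => Cap p (R n ω) / n) atTop (𝓝 L)) :
    L = asympCap p := by
  have h1 : Tendsto (fun n : ℕ => ∫ ω, Cap p (R n ω) / n ∂(walk p)) atTop
      (𝓝 (∫ _, L ∂(walk p))) := by
    refine tendsto_integral_of_dominated_convergence (fun _ => (2:ℝ)) ?_ (integrable_const _) ?_ h
    · intro n
      exact ((dep_Cap p n).comp fun x => x / n).measurable.aestronglyMeasurable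
    · intro n
      refine Filter.Eventually.of_forall fun ω => ?_
      rw [Real.norm_of_nonneg (div_nonneg (Cap_nonneg p _) (Nat.cast_nonneg n))]
      have h2 := (Cap_le_card p (R n ω)).trans (card_R_le n ω)
      rcases Nat.eq_zero_or_pos n with rfl | hn
      · simp
      · have h3 : (1:ℝ) ≤ n := by exact_mod_cast hn
        rw [div_le_iff₀ (by linarith)]
        linarith
  simp only [integral_div] at h1
  rw [integral_const] at h1
  simp only [probReal_univ, smul_eq_mul, one_mul] at h1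
  exact tendsto_nhds_unique h1 (tendsto_asympCap p)

lemma unif_isUnif : IsUnif unif := fun _ => rfl

lemma pd_zero : pd 0 = fun _ => 1 / 8 := by
  funext s
  unfold pd
  split_ifs <;> norm_num

theorem asympCap_unif : asympCap unif = 0 := by
  have hz : ∀ w, Tendsto (fun n => pm unif.1 n w) atTop (𝓝 0) := by
    intro w
    have := pm_tendsto w
    rw [pd_zero] at this
    exact this
  have hlow := green_lower unif_isUnif hz
  have hle : ∀ ε : ℝ, 0 < ε → asympCap unif ≤ 2 * ε := by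
    intro ε hε
    refine le_of_tendsto (tendsto_asympCap unif) ?_
    filter_upwards [upper_eps unif_isUnif (by norm_num : (0:ℝ) < 1 / 128) hlow hε,
      eventually_ge_atTop 1] with n hn hn1
    have h1 : (1:ℝ) ≤ n := by exact_mod_cast hn1
    rw [div_le_iff₀ (by linarith)]
    refine hn.trans ?_
    nlinarith
  have h0 : 0 ≤ asympCap unif := by
    refine ge_of_tendsto' (tendsto_asympCap unif) fun n => ?_
    exact div_nonneg (integral_nonneg fun ω => Cap_nonneg _ _) (Nat.cast_nonneg n)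
  refine le_antisymm ?_ h0
  by_contra hcon
  push Not at hcon
  have := hle (asympCap unif / 4) (by linarith)
  linarith

theorem asympCap_drift {δ : ℝ} (h0 : 0 < δ) (h1 : |δ| < 1) :
    1 / (8 * Cst ^ 2) * δ ^ (4 / 5 : ℝ) ≤ asympCap (pD δ h1) := by
  have hB : 0 < Cst * δ ^ (-(2 / 5) : ℝ) := mul_pos Cst_pos (Real.rpow_pos_of_pos h0 _)
  have heq : 1 / (8 * Cst ^ 2) * δ ^ (4 / 5 : ℝ) =
      1 / (8 * (Cst * δ ^ (-(2 / 5) : ℝ)) ^ 2) := by
    have h2 : (δ ^ (-(2 / 5) : ℝ)) ^ 2 = (δ ^ (4 / 5 : ℝ))⁻¹ := by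
      rw [← Real.rpow_natCast, ← Real.rpow_mul h0.le, ← Real.rpow_neg h0.le]
      norm_num
    rw [mul_pow, h2]
    have := Cst_pos
    have h3 : 0 < δ ^ (4 / 5 : ℝ) := Real.rpow_pos_of_pos h0 _
    field_simp
  rw [heq]
  refine ge_of_tendsto (tendsto_asympCap _) ?_
  filter_upwards [eventually_ge_atTop 1] with n hn
  have hn1 : (1:ℝ) ≤ n := by exact_mod_cast hn
  have h2 := lower hB (sqB h0 h1) n
  rw [le_div_iff₀ (by linarith)]
  refine le_trans ?_ h2
  rw [one_div, inv_mul_eq_div]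
  exact div_le_div_of_nonneg_right (by linarith) (by positivity)

lemma full_pd {δ : ℝ} (h : |δ| < 1) : full (fun t : Coord => pd δ t.1) = pd δ := by
  funext s
  unfold full
  split_ifs with hs
  · subst hs
    have h1 := (pd_mem h).2
    have h2 : ∑ s, pd δ s = ∑ t : Coord, pd δ t.1 + pd δ ((3 : Fin 4), false) := by
      have h3 := Fintype.sum_subtype_add_sum_subtype
        (fun s : Step => s ≠ ((3 : Fin 4), false)) (pd δ)
      rw [← h3]
      congr 1
      rw [Fintype.sum_eq_single ⟨((3 : Fin 4), false), by simp⟩]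
      rintro ⟨a, ha⟩ hne
      exact absurd (Subtype.ext (not_not.1 ha)) hne
    linarith
  · rfl

theorem not_differentiable (F : (Coord → ℝ) → ℝ)
    (hF : DifferentiableAt ℝ F (fun t => unif.1 t.1)) :
    ¬ ∀ᶠ x in 𝓝 (fun t : Coord => unif.1 t.1),
      ∀ h : (∀ s, 0 < full x s) ∧ ∑ s, full x s = 1, F x = asympCap ⟨full x, h⟩ := by
  intro hev
  have hbase : (fun t : Coord => pd 0 t.1) = fun t : Coord => unif.1 t.1 := by
    rw [pd_zero]; rfl
  obtain ⟨γ, hγ⟩ : ∃ γ : ℝ → Coord → ℝ, γ = fun δ t => pd δ t.1 := ⟨_, rfl⟩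
  have hγ0 : γ 0 = fun t : Coord => unif.1 t.1 := by rw [hγ]; exact hbase
  have hγd : DifferentiableAt ℝ γ 0 := by
    rw [hγ]
    refine differentiableAt_pi.2 fun t => ?_
    unfold pd
    split_ifs <;> fun_prop
  have hFd : DifferentiableAt ℝ F (γ 0) := by rw [hγ0]; exact hF
  have hgd : DifferentiableAt ℝ (fun δ => F (γ δ)) 0 := hFd.comp 0 hγd
  have hγc : Tendsto γ (𝓝 0) (𝓝 (γ 0)) := hγd.continuousAt
  rw [hγ0] at hγc
  have hev' := hγc.eventually hev
  have hval : ∀ᶠ δ : ℝ in 𝓝 0, ∀ h : |δ| < 1, F (γ δ) = asympCap (pD δ h) := by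
    filter_upwards [hev'] with δ hδ h
    have hfull : full (γ δ) = pd δ := by rw [hγ]; exact full_pd h
    have h2 : (∀ s, 0 < full (γ δ) s) ∧ ∑ s, full (γ δ) s = 1 := by rw [hfull]; exact pd_mem h
    rw [hδ h2]
    congr 1
    exact Subtype.ext hfull
  have h00 : |(0:ℝ)| < 1 := by norm_num
  have hg0 : F (γ 0) = 0 := by
    rw [hval.self_of_nhds h00]
    have : pD 0 h00 = unif := Subtype.ext pd_zero
    rw [this, asympCap_unif]
  have hO := hgd.hasDerivAt.isBigO_sub
  simp only [hg0, sub_zero] at hO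
  obtain ⟨C, hC⟩ := hO.bound
  have hpos : ∀ᶠ δ : ℝ in 𝓝[>] 0, 1 / (8 * Cst ^ 2) * δ ^ (4 / 5 : ℝ) ≤ C * δ := by
    have hlt : ∀ᶠ δ : ℝ in 𝓝[>] 0, δ < 1 :=
      nhdsWithin_le_nhds (Iio_mem_nhds (by norm_num))
    filter_upwards [nhdsWithin_le_nhds hval, nhdsWithin_le_nhds hC, hlt, self_mem_nhdsWithin]
      with δ h1 h2 h3 h4
    have h4' : 0 < δ := h4
    have habs : |δ| < 1 := by rw [abs_of_pos h4']; exact h3
    have h5 := asympCap_drift h4' habs
    rw [← h1 habs] at h5
    rw [Real.norm_eq_abs, Real.norm_eq_abs, abs_of_pos h4'] at h2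
    exact h5.trans ((le_abs_self _).trans h2)
  have hκ : 0 < 1 / (8 * Cst ^ 2) := by have := Cst_pos; positivity
  have hdiv : ∀ᶠ δ : ℝ in 𝓝[>] 0, 1 / (8 * Cst ^ 2) ≤ C * δ ^ (1 / 5 : ℝ) := by
    filter_upwards [hpos, self_mem_nhdsWithin] with δ h1 h2
    have h2' : 0 < δ := h2
    have h3 : 0 < δ ^ (4 / 5 : ℝ) := Real.rpow_pos_of_pos h2' _
    have h4 : δ = δ ^ (1 / 5 : ℝ) * δ ^ (4 / 5 : ℝ) := by
      rw [← Real.rpow_add h2']; norm_num
    have h5 : C * δ = C * δ ^ (1 / 5 : ℝ) * δ ^ (4 / 5 : ℝ) := by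
      conv_lhs => rw [h4]
      ring
    rw [h5] at h1
    exact le_of_mul_le_mul_right h1 h3
  have hlim : Tendsto (fun δ : ℝ => C * δ ^ (1 / 5 : ℝ)) (𝓝[>] 0) (𝓝 0) := by
    have h1 : Tendsto (fun δ : ℝ => δ ^ (1 / 5 : ℝ)) (𝓝 0) (𝓝 ((0:ℝ) ^ (1 / 5 : ℝ))) :=
      (Real.continuousAt_rpow_const 0 (1 / 5) (Or.inr (by norm_num))).tendsto
    rw [Real.zero_rpow (by norm_num)] at h1
    simpa using (h1.mono_left nhdsWithin_le_nhds).const_mul C
  have := ge_of_tendsto hlim hdiv
  linarith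

theorem not_analytic : ¬ RealAnalyticAt asympCap unif := by
  rintro ⟨F, hF, hev⟩
  exact not_differentiable F hF.differentiableAt hev

end Pool.Agent.H77RW
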