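import Pool.Agent.H77RW.Cap

open MeasureTheory Finset Filter
open scoped ENNReal BigOperators Topology Real

namespace Pool.Agent.H77RW

/-- Characters. -/
noncomputable def ch (z : Z4) (θ : Fin 4 → ℝ) : ℂ :=
  ∏ i, Complex.exp ((z i : ℂ) * Complex.I * (θ i : ℂ))

noncomputable abbrev mu1 : Measure ℝ := volume.restrict (Set.Ioc (-π) π)

noncomputable abbrev mu4 : Measure (Fin 4 → ℝ) := Measure.pi fun _ => mu1

lemma ch_add (z w : Z4) (θ : Fin 4 → ℝ) : ch (z + w) θ = ch z θ * ch w θ := by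
  rw [ch, ch, ch, ← Finset.prod_mul_distrib]
  refine Finset.prod_congr rfl fun i _ => ?_
  rw [← Complex.exp_add]
  congr 1
  simp only [Pi.add_apply]
  push_cast
  ring

lemma ch_conj (z : Z4) (θ : Fin 4 → ℝ) : (starRingEnd ℂ) (ch z θ) = ch (-z) θ := by
  rw [ch, ch, map_prod]
  refine Finset.prod_congr rfl fun i _ => ?_
  rw [← Complex.exp_conj]
  congr 1
  simp

lemma ch_zero (θ : Fin 4 → ℝ) : ch 0 θ = 1 := by simp [ch]

lemma ch_norm (z : Z4) (θ : Fin 4 → ℝ) : ‖ch z θ‖ = 1 := by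
  rw [ch, norm_prod]
  refine Finset.prod_eq_one fun i _ => ?_
  rw [show (z i : ℂ) * Complex.I * (θ i : ℂ) = (((z i : ℝ) * θ i : ℝ) : ℂ) * Complex.I by
    push_cast; ring]
  exact Complex.norm_exp_ofReal_mul_I _

lemma ch_continuous (z : Z4) : Continuous (ch z) := by
  unfold ch
  fun_prop

lemma ch_integrable (z : Z4) : Integrable (ch z) mu4 :=
  Integrable.of_bound (C := 1) (ch_continuous z).aestronglyMeasurable
    (Filter.Eventually.of_forall fun θ => (ch_norm z θ).le)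

lemma int_one (k : ℤ) : ∫ t, Complex.exp ((k : ℂ) * Complex.I * (t : ℂ)) ∂mu1 =
    if k = 0 then ((2 * π : ℝ) : ℂ) else 0 := by
  have hpi : (-π : ℝ) ≤ π := by linarith [Real.pi_pos]
  rw [← intervalIntegral.integral_of_le hpi]
  split_ifs with h
  · subst h
    simp
    ring
  · have hc : (k : ℂ) * Complex.I ≠ 0 := mul_ne_zero (by exact_mod_cast h) Complex.I_ne_zero
    rw [integral_exp_mul_complex hc]
    have : Complex.exp ((k : ℂ) * Complex.I * ((π : ℝ) : ℂ)) =
        Complex.exp ((k : ℂ) * Complex.I * ((-π : ℝ) : ℂ)) := by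
      rw [Complex.exp_eq_exp_iff_exists_int]
      exact ⟨k, by push_cast; ring⟩
    rw [this, sub_self, zero_div]

lemma int_ch (z : Z4) : ∫ θ, ch z θ ∂mu4 = if z = 0 then (((2 * π) ^ 4 : ℝ) : ℂ) else 0 := by
  unfold ch
  rw [integral_fintype_prod_eq_prod (fun i (t : ℝ) =>
    Complex.exp ((z i : ℂ) * Complex.I * (t : ℂ)))]
  simp only [int_one]
  split_ifs with h
  · subst h
    simp
  · obtain ⟨i, hi⟩ := Function.ne_iff.1 h
    exact Finset.prod_eq_zero (Finset.mem_univ i) (if_neg (by simpa using hi))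

lemma LCc_def (F : Z4 → ℂ) (f : Z4 →₀ ℝ) : LC F f = ∑ z ∈ f.support, (f z : ℂ) * F z := by
  simp [LC, Finsupp.linearCombination_apply, Finsupp.sum]

/-- Plancherel. -/
lemma plancherel (f : Z4 →₀ ℝ) :
    ∫ θ, ‖LC (fun z => ch z θ) f‖ ^ 2 ∂mu4 = (2 * π) ^ 4 * ∑ z ∈ f.support, (f z) ^ 2 := by
  classical
  have h1 : ∀ θ, ((‖LC (fun z => ch z θ) f‖ ^ 2 : ℝ) : ℂ) =
      ∑ z ∈ f.support, ∑ w ∈ f.support, ((f z * f w : ℝ) : ℂ) * ch (z - w) θ := by
    intro θ
    rw [← Complex.normSq_eq_norm_sq, ← Complex.mul_conj, LCc_def, map_sum, Finset.sum_mul_sum]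
    refine Finset.sum_congr rfl fun z _ => Finset.sum_congr rfl fun w _ => ?_
    rw [map_mul, ch_conj, Complex.conj_ofReal, sub_eq_add_neg, ch_add]
    push_cast
    ring
  have h2 : ((∫ θ, ‖LC (fun z => ch z θ) f‖ ^ 2 ∂mu4 : ℝ) : ℂ) =
      (((2 * π) ^ 4 * ∑ z ∈ f.support, (f z) ^ 2 : ℝ) : ℂ) := by
    rw [← integral_complex_ofReal]
    have h3 : ∀ z w : Z4, Integrable (fun θ => ((f z * f w : ℝ) : ℂ) * ch (z - w) θ) mu4 :=
      fun z w => (ch_integrable (z - w)).const_mul _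
    simp only [h1]
    rw [integral_finsetSum _ fun z _ => integrable_finsetSum _ fun w _ => h3 z w]
    have h4 : ∀ z ∈ f.support, ∫ θ, ∑ w ∈ f.support, ((f z * f w : ℝ) : ℂ) * ch (z - w) θ ∂mu4 =
        (((2 * π) ^ 4 * (f z) ^ 2 : ℝ) : ℂ) := by
      intro z hz
      rw [integral_finsetSum _ fun w _ => h3 z w]
      rw [Finset.sum_eq_single z]
      · rw [integral_const_mul, int_ch, sub_self, if_pos rfl]
        push_cast
        ring
      · intro w _ hwz
        rw [integral_const_mul, int_ch, if_neg (sub_ne_zero.2 (Ne.symm hwz)), mul_zero]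
      · intro h; exact absurd hz h
    rw [Finset.sum_congr rfl h4, Finset.mul_sum]
    push_cast
    rfl
  exact_mod_cast h2

/-- The characteristic function of one step. -/
noncomputable def phi (p : Step → ℝ) (θ : Fin 4 → ℝ) : ℂ := ∑ s, (p s : ℂ) * ch (vec s) θ

lemma LC_ch_pm (p : Step → ℝ) (θ : Fin 4 → ℝ) (n : ℕ) :
    LC (fun z => ch z θ) (pm p n) = phi p θ ^ n := by
  induction n with
  | zero => rw [LC_zero', ch_zero, pow_zero]
  | succ n ih =>
    rw [LC_succ, pow_succ', phi, Finset.sum_mul]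
    refine Finset.sum_congr rfl fun s _ => ?_
    have : LC (fun z => ch (z + vec s) θ) (pm p n) = LC (fun z => ch z θ) (pm p n) *
        ch (vec s) θ := by
      rw [LCc_def, LCc_def, Finset.sum_mul]
      refine Finset.sum_congr rfl fun z _ => ?_
      rw [ch_add]
      ring
    rw [this, ih, phi, Complex.real_smul]
    ring

lemma LC_ch_gr (p : Step → ℝ) (θ : Fin 4 → ℝ) (n : ℕ) :
    LC (fun z => ch z θ) (gr p n) = ∑ j ∈ range n, phi p θ ^ j := by
  rw [gr, LC_sum]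
  exact Finset.sum_congr rfl fun j _ => LC_ch_pm p θ j

lemma phi_norm_le (p : Delta) (θ : Fin 4 → ℝ) : ‖phi p.1 θ‖ ≤ 1 := by
  rw [phi]
  refine (norm_sum_le _ _).trans ?_
  refine le_trans (Finset.sum_le_sum (g := fun s => p.1 s) fun s _ => ?_) p.2.2.le
  rw [norm_mul, ch_norm, mul_one, Complex.norm_real, Real.norm_of_nonneg (p.2.1 s).le]

lemma phi_continuous (p : Step → ℝ) : Continuous (phi p) := by
  unfold phi
  exact continuous_finsetSum _ fun s _ => continuous_const.mul (ch_continuous _)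

lemma geom_bound (p : Delta) (θ : Fin 4 → ℝ) (n : ℕ) {D : ℝ} (hD : 0 < D)
    (h : D ≤ Complex.normSq (1 - phi p.1 θ)) :
    ‖∑ j ∈ range n, phi p.1 θ ^ j‖ ^ 2 ≤ 4 / D := by
  have h1 := mul_neg_geom_sum (phi p.1 θ) n
  have h2 : ‖1 - phi p.1 θ‖ ^ 2 * ‖∑ j ∈ range n, phi p.1 θ ^ j‖ ^ 2 ≤ 4 := by
    rw [← mul_pow, ← norm_mul, h1]
    have h3 : ‖1 - phi p.1 θ ^ n‖ ≤ 2 := by
      refine (norm_sub_le _ _).trans ?_
      rw [norm_one, norm_pow]
      have := pow_le_one₀ (n := n) (norm_nonneg _) (phi_norm_le p θ)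
      linarith
    nlinarith [norm_nonneg (1 - phi p.1 θ ^ n)]
  rw [Complex.normSq_eq_norm_sq] at h
  rw [le_div_iff₀ hD]
  have := mul_le_mul_of_nonneg_right h (sq_nonneg ‖∑ j ∈ range n, phi p.1 θ ^ j‖)
  linarith

lemma ch_vec (i : Fin 4) (b : Bool) (θ : Fin 4 → ℝ) :
    ch (vec (i, b)) θ = Complex.exp (((if b then (1:ℝ) else -1) * θ i : ℝ) * Complex.I) := by
  rw [ch, Finset.prod_eq_single i]
  · congr 1
    simp only [vec, Pi.single_eq_same]
    cases b <;> simp <;> ring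
  · intro j _ hj
    simp [vec, Pi.single_apply, hj]
  · intro h; exact absurd (Finset.mem_univ i) h

lemma ch_vec_re (i : Fin 4) (b : Bool) (θ : Fin 4 → ℝ) :
    (ch (vec (i, b)) θ).re = Real.cos (θ i) := by
  rw [ch_vec, Complex.exp_ofReal_mul_I_re]
  cases b <;> simp

lemma ch_vec_im (i : Fin 4) (b : Bool) (θ : Fin 4 → ℝ) :
    (ch (vec (i, b)) θ).im = (if b then 1 else -1) * Real.sin (θ i) := by
  rw [ch_vec, Complex.exp_ofReal_mul_I_im]
  cases b <;> simp

/-- The probability vectors with drift `δ / 4` in the first direction. -/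
noncomputable def pd (δ : ℝ) : Step → ℝ := fun s =>
  (1 + if s.1 = 0 then (if s.2 then δ else -δ) else 0) / 8

lemma pd_mem {δ : ℝ} (h : |δ| < 1) : (∀ s, 0 < pd δ s) ∧ ∑ s, pd δ s = 1 := by
  have h1 := abs_lt.1 h
  constructor
  · intro s
    unfold pd
    split_ifs <;> linarith
  · simp only [pd, Fintype.sum_prod_type, Fin.sum_univ_four, Fintype.sum_bool]
    simp
    ring

/-- The vectors with drift as points of the simplex. -/
noncomputable def pD (δ : ℝ) (h : |δ| < 1) : Delta := ⟨pd δ, pd_mem h⟩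

lemma phi_pd_re (δ : ℝ) (θ : Fin 4 → ℝ) :
    (phi (pd δ) θ).re = (1 / 4) * ∑ i, Real.cos (θ i) := by
  rw [phi, Complex.re_sum, Fintype.sum_prod_type]
  simp only [Complex.re_ofReal_mul, ch_vec_re, Fintype.sum_bool, Fin.sum_univ_four, pd]
  simp
  ring

lemma phi_pd_im (δ : ℝ) (θ : Fin 4 → ℝ) :
    (phi (pd δ) θ).im = δ / 4 * Real.sin (θ 0) := by
  rw [phi, Complex.im_sum, Fintype.sum_prod_type]
  simp only [Complex.im_ofReal_mul, ch_vec_im, Fintype.sum_bool, Fin.sum_univ_four, pd]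
  simp
  ring

lemma ae_good : ∀ᵐ θ ∂mu4, ∀ i, 0 < 1 - Real.cos (θ i) ∧ 0 < 1 + Real.cos (θ i) := by
  rw [ae_all_iff]
  intro i
  have h1 : ∀ᵐ t ∂mu1, 0 < 1 - Real.cos t ∧ 0 < 1 + Real.cos t := by
    have h2 : ∀ᵐ t ∂(volume : Measure ℝ), t ∉ ({0, π} : Set ℝ) :=
      (Set.Finite.countable (by simp)).ae_notMem _
    have h3 : ∀ᵐ t ∂mu1, t ∉ ({0, π} : Set ℝ) := ae_restrict_of_ae h2
    have h4 : ∀ᵐ t ∂mu1, t ∈ Set.Ioc (-π) π := ae_restrict_mem measurableSet_Ioc
    filter_upwards [h3, h4] with t ht hm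
    simp only [Set.mem_insert_iff, Set.mem_singleton_iff, not_or] at ht
    have hsin : Real.sin t ≠ 0 := by
      intro h0
      rcases lt_or_ge t 0 with hneg | hpos
      · exact (Real.sin_neg_of_neg_of_neg_pi_lt hneg hm.1).ne h0
      · rcases hpos.lt_or_eq with hp | hp
        · rcases hm.2.lt_or_eq with hl | hl
          · exact (Real.sin_pos_of_pos_of_lt_pi hp hl).ne' h0
          · exact ht.2 hl
        · exact ht.1 hp.symm
    have hsq := Real.sin_sq_add_cos_sq t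
    have hs2 : 0 < Real.sin t ^ 2 := by positivity
    constructor
    · nlinarith [Real.cos_le_one t, Real.neg_one_le_cos t]
    · nlinarith [Real.cos_le_one t, Real.neg_one_le_cos t]
  exact (Measure.quasiMeasurePreserving_eval (fun _ : Fin 4 => mu1) i).ae h1

end Pool.Agent.H77RW
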