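import Pool.Agent.H77RW.Upper

open MeasureTheory Finset Filter
open scoped ENNReal BigOperators Topology

namespace Pool.Agent.H77RW

/-- The integer squared norm. -/
def nq (z : Z4) : ℤ := ∑ i, z i ^ 2

lemma nq_nonneg (z : Z4) : 0 ≤ nq z := Finset.sum_nonneg fun _ _ => sq_nonneg _

lemma nq_cast (z : Z4) : ((nq z : ℤ) : ℝ) = nsq z := by simp [nq, nsq]

/-- The comparison function of the squared norm. -/
noncomputable def hr (r : ℤ) : ℝ := if r = 0 then 64 else if r = 1 then 8 else 1 / ((r : ℝ) - 1)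

lemma hr_pos {r : ℤ} (h : 0 ≤ r) : 0 < hr r := by
  unfold hr
  split_ifs with h0 h1
  · norm_num
  · norm_num
  · have : (2:ℝ) ≤ r := by exact_mod_cast (by omega : (2:ℤ) ≤ r)
    have : (0:ℝ) < (r:ℝ) - 1 := by linarith
    positivity

lemma hr_le {r : ℤ} (h : 0 ≤ r) : hr r ≤ 64 := by
  unfold hr
  split_ifs with h0 h1
  · norm_num
  · norm_num
  · have : (2:ℝ) ≤ r := by exact_mod_cast (by omega : (2:ℤ) ≤ r)
    rw [div_le_iff₀ (by linarith)]
    linarith

lemma hr_le_one {r : ℤ} (h : 2 ≤ r) : hr r ≤ 1 := by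
  unfold hr
  have : (2:ℝ) ≤ r := by exact_mod_cast h
  rw [if_neg (by omega), if_neg (by omega), div_le_one (by linarith)]
  linarith

lemma hr_of_two_le {r : ℤ} (h : 2 ≤ r) : hr r = 1 / ((r : ℝ) - 1) := by
  unfold hr
  rw [if_neg (by omega), if_neg (by omega)]

lemma nq_add_vec (z : Z4) (i : Fin 4) (b : Bool) :
    nq (z + vec (i, b)) = nq z + (if b then 2 * z i else -2 * z i) + 1 := by
  fin_cases i <;> cases b <;>
    simp [nq, vec, Fin.sum_univ_four, Pi.single_apply] <;> ring

/-- The two-term convexity inequality. -/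
lemma two_term {r t : ℝ} (hr2 : 2 ≤ r) (h1 : 0 < r - 2 * t) (h2 : 0 < r + 2 * t) :
    2 / (r - 1) + 8 / (r * (r - 1) ^ 2) * (t ^ 2 - r / 4) ≤ 1 / (r - 2 * t) + 1 / (r + 2 * t) := by
  have hr1 : 0 < r - 1 := by linarith
  have hrp : 0 < r := by linarith
  have hD : 0 < (r - 2 * t) * (r + 2 * t) := mul_pos h1 h2
  have key : 1 / (r - 2 * t) + 1 / (r + 2 * t) -
      (2 / (r - 1) + 8 / (r * (r - 1) ^ 2) * (t ^ 2 - r / 4)) =
      2 * (4 * t ^ 2 - r) ^ 2 / (r * (r - 1) ^ 2 * ((r - 2 * t) * (r + 2 * t))) := by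
    have e1 := h1.ne'
    have e2 := h2.ne'
    have e3 := hr1.ne'
    have e4 := hrp.ne'
    field_simp
    ring
  have : 0 ≤ 2 * (4 * t ^ 2 - r) ^ 2 / (r * (r - 1) ^ 2 * ((r - 2 * t) * (r + 2 * t))) := by
    positivity
  linarith

lemma sub_harm (z : Z4) :
    8 * hr (nq z) ≤ ∑ s : Step, hr (nq (z + vec s)) + (if z = 0 then 512 else 0) := by
  have hpos : ∀ s : Step, 0 ≤ hr (nq (z + vec s)) := fun s => (hr_pos (nq_nonneg _)).le
  have hone : ∀ s : Step, hr (nq (z + vec s)) ≤ ∑ s : Step, hr (nq (z + vec s)) := fun s =>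
    Finset.single_le_sum (f := fun s : Step => hr (nq (z + vec s))) (fun s _ => hpos s)
      (Finset.mem_univ s)
  by_cases hz : z = 0
  · rw [if_pos hz]
    have h1 := hr_le (nq_nonneg z)
    have h2 := Finset.sum_nonneg (s := (Finset.univ : Finset Step)) fun s _ => hpos s
    linarith
  rw [if_neg hz, add_zero]
  have hnz : 1 ≤ nq z := by
    obtain ⟨i, hi⟩ := Function.ne_iff.1 hz
    have h1 : (z i) ^ 2 ≤ nq z :=
      Finset.single_le_sum (f := fun i => z i ^ 2) (fun i _ => sq_nonneg _) (Finset.mem_univ i)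
    have h2 : 0 < (z i) ^ 2 := by
      have : z i ≠ 0 := by simpa using hi
      positivity
    omega
  by_cases hbad : ∃ i, nq z ≤ 2 * |z i|
  · obtain ⟨i, hi⟩ := hbad
    -- the neighbour in the direction of the origin
    have h1 : (z i) ^ 2 ≤ nq z :=
      Finset.single_le_sum (f := fun i => z i ^ 2) (fun i _ => sq_nonneg _) (Finset.mem_univ i)
    obtain ⟨b, hb⟩ : ∃ b : Bool, nq (z + vec (i, b)) = nq z - 2 * |z i| + 1 := by
      rcases le_total 0 (z i) with h | h
      · exact ⟨false, by rw [nq_add_vec, abs_of_nonneg h]; simp; ring⟩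
      · exact ⟨true, by rw [nq_add_vec, abs_of_nonpos h]; simp⟩
    have hle1 : nq (z + vec (i, b)) ≤ 1 := by omega
    have hge0 := nq_nonneg (z + vec (i, b))
    have h8 : 8 ≤ hr (nq (z + vec (i, b))) := by
      have : nq (z + vec (i, b)) = 0 ∨ nq (z + vec (i, b)) = 1 := by omega
      rcases this with h | h
      · rw [h]; unfold hr; norm_num
      · rw [h]; unfold hr; norm_num
    have hs := hone (i, b)
    by_cases h2 : 2 ≤ nq z
    · have := hr_le_one h2
      linarith
    · have h3 : nq z = 1 := by omega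
      have h4 : |z i| = 1 := by
        have h5 : (z i) ^ 2 ≤ 1 := by omega
        have h6 : |z i| ≤ 1 := by
          rw [← sq_abs] at h5
          nlinarith [abs_nonneg (z i)]
        omega
      have h5 : nq (z + vec (i, b)) = 0 := by rw [hb, h3, h4]; norm_num
      have h6 : hr (nq (z + vec (i, b))) = 64 := by rw [h5]; unfold hr; simp
      have h7 : hr (nq z) = 8 := by rw [h3]; unfold hr; simp
      rw [h6] at hs
      rw [h7]
      linarith
  · push Not at hbad
    have h2 : 2 ≤ nq z := by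
      by_contra h
      have h3 : nq z = 1 := by omega
      have h4 : ∀ i, z i = 0 := fun i => by
        have := hbad i
        rw [h3] at this
        have h5 := abs_nonneg (z i)
        have h6 : |z i| = 0 := by omega
        exact abs_eq_zero.1 h6
      exact hz (funext h4)
    have h2r : (2:ℝ) ≤ (nq z : ℝ) := by exact_mod_cast h2
    have hb1 : ∀ i, (0:ℝ) < (nq z : ℝ) - 2 * (z i : ℝ) := fun i => by
      have := hbad i
      have h3 := le_abs_self (z i)
      exact_mod_cast (by omega : (0:ℤ) < nq z - 2 * z i)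
    have hb2 : ∀ i, (0:ℝ) < (nq z : ℝ) + 2 * (z i : ℝ) := fun i => by
      have := hbad i
      have h3 := neg_abs_le (z i)
      exact_mod_cast (by omega : (0:ℤ) < nq z + 2 * z i)
    have hsum : ∑ s : Step, hr (nq (z + vec s)) =
        ∑ i, (1 / ((nq z : ℝ) - 2 * (z i : ℝ)) + 1 / ((nq z : ℝ) + 2 * (z i : ℝ))) := by
      rw [Fintype.sum_prod_type]
      refine Finset.sum_congr rfl fun i _ => ?_
      rw [Fintype.sum_bool, nq_add_vec, nq_add_vec]
      simp only [if_true]
      have e1 : 2 ≤ nq z + 2 * z i + 1 := by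
        have := hbad i; have h3 := neg_abs_le (z i); omega
      have e2 : 2 ≤ nq z + -2 * z i + 1 := by
        have := hbad i; have h3 := le_abs_self (z i); omega
      rw [hr_of_two_le e1]
      simp only [Bool.false_eq_true, if_false]
      rw [hr_of_two_le e2, add_comm]
      push_cast
      congr 2 <;> ring
    rw [hsum, hr_of_two_le h2]
    have hterm := Finset.sum_le_sum fun i (_ : i ∈ (Finset.univ : Finset (Fin 4))) =>
      two_term h2r (hb1 i) (hb2 i)
    refine le_trans (le_of_eq ?_) hterm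
    rw [Finset.sum_add_distrib, ← Finset.mul_sum, Finset.sum_sub_distrib]
    have h3 : ∑ i, ((z i : ℤ) : ℝ) ^ 2 = (nq z : ℝ) := by rw [nq_cast, nsq]
    rw [h3]
    simp
    ring

/-- The iterated averages of the comparison function. -/
lemma hr_le_iter {p : Delta} (hp : IsUnif p) (x : Z4) (n : ℕ) :
    hr (nq x) ≤ LC (fun z => hr (nq (x + z))) (pm p.1 n) + 64 * gr p.1 n (-x) := by
  induction n with
  | zero => simp [LC_zero', gr]
  | succ n ih =>
    refine ih.trans ?_
    have h1 : LC (fun z => hr (nq (x + z))) (pm p.1 n) ≤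
        LC (fun z => hr (nq (x + z))) (pm p.1 (n + 1)) + 64 * pm p.1 n (-x) := by
      have h2 : LC (fun z => hr (nq (x + z))) (pm p.1 (n + 1)) =
          LC (fun z => ∑ s : Step, (1 / 8) * hr (nq (x + z + vec s))) (pm p.1 n) := by
        rw [LC_succ, LC_fun_sum]
        refine Finset.sum_congr rfl fun s _ => ?_
        rw [LC_smul_fun, hp s, smul_eq_mul]
        simp only [add_assoc]
      have h3 : 64 * pm p.1 n (-x) = LC (fun z => 64 * if z = -x then (1:ℝ) else 0) (pm p.1 n) := by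
        rw [LC_smul_fun, LC_indicator]
      rw [h2, h3, ← LC_sub_fun]
      refine LC_mono (fun z => pm_nonneg (fun s => (p.2.1 s).le) n z) fun z => ?_
      have h4 := sub_harm (x + z)
      rw [← Finset.mul_sum]
      by_cases hz : z = -x
      · have h5 : x + z = 0 := by rw [hz]; abel
        rw [if_pos h5] at h4
        rw [if_pos hz]
        linarith
      · have h5 : x + z ≠ 0 := fun h => hz (eq_neg_of_add_eq_zero_right h)
        rw [if_neg h5] at h4
        rw [if_neg hz]
        linarith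
    have h2 : gr p.1 (n + 1) (-x) = gr p.1 n (-x) + pm p.1 n (-x) := by
      rw [gr_apply, gr_apply, Finset.sum_range_succ]
    rw [h2]
    linarith

lemma finite_large (x : Z4) (K : ℤ) : {z : Z4 | nq (x + z) ≤ K}.Finite := by
  have h1 : {z : Z4 | nq (x + z) ≤ K} ⊆
      (fun u : Z4 => u - x) '' (Set.pi Set.univ fun _ : Fin 4 => Set.Icc (-K) K) := by
    intro z hz
    refine ⟨x + z, ?_, by simp⟩
    intro i _
    have h2 : ((x + z) i) ^ 2 ≤ nq (x + z) :=
      Finset.single_le_sum (f := fun i => (x + z) i ^ 2) (fun i _ => sq_nonneg _)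
        (Finset.mem_univ i)
    have h3 : ((x + z) i) ^ 2 ≤ K := h2.trans hz
    rw [Set.mem_Icc]
    have h4 : |(x + z) i| ≤ ((x + z) i) ^ 2 := by
      rcases eq_or_ne ((x + z) i) 0 with h0 | h0
      · rw [h0]; norm_num
      · have h5 := Int.one_le_abs h0
        rw [← sq_abs]
        nlinarith
    exact abs_le.1 (h4.trans h3)
  exact ((Set.Finite.pi fun _ : Fin 4 => Set.finite_Icc (-K) K).image _).subset h1

lemma iter_tendsto {p : Delta} (hz : ∀ w, Tendsto (fun n => pm p.1 n w) atTop (𝓝 0)) (x : Z4) :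
    Tendsto (fun n => LC (fun z => hr (nq (x + z))) (pm p.1 n)) atTop (𝓝 0) := by
  classical
  have hpn : ∀ j z, 0 ≤ pm p.1 j z := fun j z => pm_nonneg (fun s => (p.2.1 s).le) j z
  rw [Metric.tendsto_atTop]
  intro ε hε
  obtain ⟨K, hK⟩ := exists_nat_ge (1 + 2 / ε)
  obtain ⟨S, hS⟩ : ∃ S : Finset Z4, ∀ z, nq (x + z) ≤ (K : ℤ) + 1 → z ∈ S :=
    ⟨(finite_large x ((K : ℤ) + 1)).toFinset, fun z hz => by simpa using hz⟩
  have hbound : ∀ n, LC (fun z => hr (nq (x + z))) (pm p.1 n) ≤
      ε / 2 + 64 * ∑ w ∈ S, pm p.1 n w := by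
    intro n
    have h1 : ∀ z, hr (nq (x + z)) ≤ ε / 2 + ∑ w ∈ S, 64 * if z = w then (1:ℝ) else 0 := by
      intro z
      have h2 : 0 ≤ ∑ w ∈ S, 64 * if z = w then (1:ℝ) else 0 :=
        Finset.sum_nonneg fun w _ => by split_ifs <;> norm_num
      by_cases h3 : nq (x + z) ≤ (K : ℤ) + 1
      · have h4 := hS z h3
        rw [← Finset.mul_sum, Finset.sum_ite_eq S z, if_pos h4]
        have := hr_le (nq_nonneg (x + z))
        linarith
      · push Not at h3
        have hK1 : (1:ℝ) + 2 / ε ≤ K := hK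
        have h4 : ((K : ℝ) + 1) < (nq (x + z) : ℝ) := by exact_mod_cast h3
        have h5 : (2:ℤ) ≤ nq (x + z) := by
          have : (0:ℤ) ≤ K := Int.natCast_nonneg K
          omega
        rw [hr_of_two_le h5]
        have h6 : 0 < 2 / ε := by positivity
        have h7 : 1 / ((nq (x + z) : ℝ) - 1) ≤ ε / 2 := by
          rw [div_le_iff₀ (by linarith)]
          have h8 : ε / 2 * (2 / ε) = 1 := by field_simp
          have h9 : ε / 2 * (2 / ε) ≤ ε / 2 * ((nq (x + z) : ℝ) - 1) :=
            mul_le_mul_of_nonneg_left (by linarith) (by positivity)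
          linarith
        linarith
    refine (LC_mono (hpn n) h1).trans (le_of_eq ?_)
    rw [LC_sub_fun, LC_one p.2.2, LC_fun_sum, Finset.mul_sum]
    congr 1
    refine Finset.sum_congr rfl fun w _ => ?_
    rw [LC_smul_fun, LC_indicator]
  have hlim : Tendsto (fun n => 64 * ∑ w ∈ S, pm p.1 n w) atTop (𝓝 0) := by
    have h1 : Tendsto (fun n => ∑ w ∈ S, pm p.1 n w) atTop (𝓝 (∑ w ∈ S, 0)) :=
      tendsto_finsetSum S fun w _ => hz w
    rw [Finset.sum_const_zero] at h1
    simpa using h1.const_mul 64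
  obtain ⟨n0, hn0⟩ := (Metric.tendsto_atTop.1 hlim) (ε / 2) (by positivity)
  refine ⟨n0, fun n hn => ?_⟩
  have h1 := hn0 n hn
  rw [Real.dist_eq, sub_zero] at h1 ⊢
  have h2 := hbound n
  have h3 : 0 ≤ LC (fun z => hr (nq (x + z))) (pm p.1 n) :=
    LC_nonneg (hpn n) fun z => (hr_pos (nq_nonneg _)).le
  rw [abs_of_nonneg h3]
  have h4 := (abs_lt.1 h1).2
  linarith

/-- The lower bound `G(z) ≥ 1 / (128 (1 + |z|²))`. -/
theorem green_lower {p : Delta} (hp : IsUnif p)
    (hz : ∀ w, Tendsto (fun n => pm p.1 n w) atTop (𝓝 0)) (z : Z4) :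
    ∀ᶠ M in atTop, (1 / 128) / (1 + nsq z) ≤ gr p.1 M z := by
  have h1 := iter_tendsto hz (-z)
  have hpos := hr_pos (nq_nonneg (-z))
  have h2 : ∀ᶠ n in atTop, LC (fun w => hr (nq (-z + w))) (pm p.1 n) < hr (nq (-z)) / 2 :=
    (tendsto_order.1 h1).2 _ (by linarith)
  filter_upwards [h2] with n hn
  have h3 := hr_le_iter hp (-z) n
  rw [neg_neg] at h3
  have h4 : hr (nq (-z)) / 128 ≤ gr p.1 n z := by linarith
  refine le_trans ?_ h4
  have h5 : 1 / (1 + nsq z) ≤ hr (nq (-z)) := by
    have h6 : nsq z = (nq (-z) : ℝ) := by rw [nq_cast, nsq_neg]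
    rw [h6]
    have h7 := nq_nonneg (-z)
    have h7' : (0:ℝ) ≤ (nq (-z) : ℝ) := by exact_mod_cast h7
    unfold hr
    split_ifs with h8 h9
    · rw [h8]; norm_num
    · rw [h9]; norm_num
    · have h10 : (2:ℝ) ≤ (nq (-z) : ℝ) := by exact_mod_cast (by omega : (2:ℤ) ≤ nq (-z))
      exact one_div_le_one_div_of_le (by linarith) (by linarith)
  calc (1 / 128) / (1 + nsq z) = 1 / (1 + nsq z) / 128 := by ring
    _ ≤ _ := by linarith

end Pool.Agent.H77RW
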