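import Pool.Agent.H77RW.Cap

open MeasureTheory Finset Filter
open scoped ENNReal BigOperators Topology

namespace Pool.Agent.H77RW

/-- The second backward moment. -/
lemma backward_sq {p : Delta} {B : ℝ} (h : SqB p B) {F : Z4 → ℝ} (hF0 : ∀ z, 0 ≤ F z)
    (hF : ∀ S : Finset Z4, ∑ z ∈ S, (F z) ^ 2 ≤ B) (k : ℕ) :
    ∫ ω, (∑ i ∈ range k, F (X k ω - X i ω)) ^ 2 ∂(walk p) ≤ 2 * B ^ 2 := by
  have hB : 0 ≤ B := by simpa using hF ∅
  have hpn : ∀ j z, 0 ≤ pm p.1 j z := fun j z => pm_nonneg (fun s => (p.2.1 s).le) j z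
  have hdd : ∀ i, i ≤ k → Dep k fun ω => F (X k ω - X i ω) := fun i hi =>
    (dep_X k).comp₂ ((dep_X i).mono hi) fun a b => F (a - b)
  have hdepn : ∀ l, l ∈ range k → ∀ i, i ∈ range (l + 1) →
      Dep k fun ω => F (X k ω - X i ω) * F (X k ω - X l ω) := fun l hl i hi =>
    (hdd i (by rw [Finset.mem_range] at hi hl; omega)).comp₂
      (hdd l (by rw [Finset.mem_range] at hl; omega)) fun a b => a * b
  have hd1 : Dep k fun ω => ∑ i ∈ range k, F (X k ω - X i ω) :=
    Dep.sum fun i hi => hdd i (Finset.mem_range.1 hi).le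
  have hd2 : Dep k fun ω => ∑ l ∈ range k, ∑ i ∈ range (l + 1),
      F (X k ω - X i ω) * F (X k ω - X l ω) :=
    Dep.sum fun l hl => Dep.sum fun i hi => hdepn l hl i hi
  obtain ⟨Q, hQ⟩ : ∃ Q : ℕ → ℕ → ℝ, Q = fun i j =>
    LC (fun y => LC (fun z => F (y + z) * F z) (pm p.1 j)) (pm p.1 i) := ⟨_, rfl⟩
  have hQ0 : ∀ i j, 0 ≤ Q i j := fun i j => by
    rw [hQ]
    exact LC_nonneg (hpn i) fun y => LC_nonneg (hpn j) fun z => mul_nonneg (hF0 _) (hF0 _)
  calc ∫ ω, (∑ i ∈ range k, F (X k ω - X i ω)) ^ 2 ∂(walk p)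
      ≤ ∫ ω, 2 * ∑ l ∈ range k, ∑ i ∈ range (l + 1),
          F (X k ω - X i ω) * F (X k ω - X l ω) ∂(walk p) :=
        integral_mono ((hd1.comp fun x => x ^ 2).integrable p)
          ((hd2.comp fun x => 2 * x).integrable p)
          fun ω => sq_sum_le (fun i => F (X k ω - X i ω)) k
    _ = 2 * ∑ l ∈ range k, ∑ i ∈ range (l + 1),
          ∫ ω, F (X k ω - X i ω) * F (X k ω - X l ω) ∂(walk p) := by
        rw [integral_const_mul, integral_finsetSum]
        · congr 1
          refine Finset.sum_congr rfl fun l hl => ?_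
          rw [integral_finsetSum]
          intro i hi
          exact (hdepn l hl i hi).integrable p
        · intro l hl
          exact (Dep.sum fun i hi => hdepn l hl i hi).integrable p
    _ = 2 * ∑ l ∈ range k, ∑ i ∈ range (l + 1), Q (l - i) (k - l) := by
        congr 1
        refine Finset.sum_congr rfl fun l hl => Finset.sum_congr rfl fun i hi => ?_
        rw [Finset.mem_range] at hi hl
        obtain ⟨a, rfl⟩ : ∃ a, l = i + a := ⟨l - i, by omega⟩
        obtain ⟨b, rfl⟩ : ∃ b, k = i + a + b := ⟨k - (i + a), by omega⟩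
        have h1 := integral_two p (fun y z => F (y + z) * F z) a b 0
        have h2 := integral_shift p (n := a + b)
          (Ψ := fun ω => F (0 + X a ω + (X (a + b) ω - X a ω)) * F (X (a + b) ω - X a ω))
          (((dep_X a).mono (by omega)).comp₂ (dep_X (a + b))
            fun u v => F (0 + u + (v - u)) * F (v - u)) i
        simp only [X_shift] at h2
        rw [h1] at h2
        rw [hQ]
        simp only [Nat.add_sub_cancel_left]
        simp only [zero_add] at h2
        rw [← h2]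
        congr 1
        funext ω
        congr 2
        · rw [show i + (a + b) = i + a + b by ring]; abel
        · rw [show i + (a + b) = i + a + b by ring]; abel
    _ ≤ 2 * ∑ i ∈ range (k + 1), ∑ j ∈ range (k + 1), Q i j := by
        refine mul_le_mul_of_nonneg_left ?_ (by norm_num)
        have h1 : ∀ l ∈ range k, ∑ i ∈ range (l + 1), Q (l - i) (k - l) ≤
            ∑ i ∈ range (k + 1), Q i (k - 1 - l + 1) := by
          intro l hl
          rw [Finset.mem_range] at hl
          have h2 := Finset.sum_range_reflect (fun i => Q i (k - l)) (l + 1)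
          simp only [Nat.add_sub_cancel] at h2
          rw [h2, show k - 1 - l + 1 = k - l by omega]
          exact Finset.sum_le_sum_of_subset_of_nonneg
            (Finset.range_subset_range.2 (by omega)) fun _ _ _ => hQ0 _ _
        refine (Finset.sum_le_sum h1).trans ?_
        rw [Finset.sum_range_reflect (fun j => ∑ i ∈ range (k + 1), Q i (j + 1)) k]
        rw [Finset.sum_comm (s := range (k + 1)) (t := range (k + 1))]
        rw [Finset.sum_range_succ' (fun j => ∑ i ∈ range (k + 1), Q i j) k]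
        have := Finset.sum_nonneg (s := range (k + 1)) fun i _ => hQ0 i 0
        linarith
    _ = 2 * LC (fun y => LC (fun z => F (y + z) * F z) (gr p.1 (k + 1))) (gr p.1 (k + 1)) := by
        congr 1
        rw [gr, LC_sum]
        refine Finset.sum_congr rfl fun i _ => ?_
        rw [hQ, ← LC_fun_sum]
        congr 1
        funext y
        rw [LC_sum]
    _ ≤ 2 * B ^ 2 := by
        refine mul_le_mul_of_nonneg_left ?_ (by norm_num)
        exact LC_two' _ (gr_nonneg p _) hB hF0 (h _) hF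

lemma dep_R (N : ℕ) : Dep N (R N) := by
  intro ω ω' h
  unfold R
  refine Finset.image_congr fun i hi => ?_
  have : i < N + 1 := by simpa using hi
  exact dep_X i ω ω' fun j hj => h j (by omega)

lemma mem_R {N : ℕ} {ω : ℕ → Step} {k : ℕ} (hk : k ∈ range (N + 1)) : X k ω ∈ R N ω :=
  Finset.mem_image_of_mem _ hk

lemma sum_R_le {f : Z4 → ℝ} (hf : ∀ y, 0 ≤ f y) (N : ℕ) (ω : ℕ → Step) :
    ∑ y ∈ R N ω, f y ≤ ∑ k ∈ range (N + 1), f (X k ω) := by
  classical
  rw [Finset.sum_comp f fun k => X k ω, R]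
  refine Finset.sum_le_sum fun y hy => ?_
  have h1 : 1 ≤ #{a ∈ range (N + 1) | X a ω = y} := by
    rw [Nat.one_le_iff_ne_zero, ← Nat.pos_iff_ne_zero, Finset.card_pos]
    obtain ⟨a, ha, hay⟩ := Finset.mem_image.1 hy
    exact ⟨a, Finset.mem_filter.2 ⟨ha, hay⟩⟩
  rw [nsmul_eq_mul]
  have h2 : (1:ℝ) ≤ (#{a ∈ range (N + 1) | X a ω = y} : ℕ) := by exact_mod_cast h1
  nlinarith [hf y]

/-- Lower bound for the expected capacity of the range. -/
theorem lower {p : Delta} {B : ℝ} (hBpos : 0 < B) (h : SqB p B) (N : ℕ) :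
    ((N : ℝ) + 1) / (8 * B ^ 2) ≤ ∫ ω, Cap p (R N ω) ∂(walk p) := by
  obtain ⟨W, hW⟩ : ∃ W : (ℕ → Step) → Z4 → ℝ,
    W = fun ω y => ∑ m ∈ range (N + 1), G p (y - X m ω) := ⟨_, rfl⟩
  have hW0 : ∀ ω y, 0 ≤ W ω y := fun ω y => by
    rw [hW]; exact Finset.sum_nonneg fun m _ => G_nonneg p _
  obtain ⟨T, hT⟩ : ∃ T : ℝ, T = 8 * B ^ 2 := ⟨_, rfl⟩
  have hTpos : 0 < T := by rw [hT]; positivity
  -- the pointwise bound
  have key : ∀ ω, 2 * ((N : ℝ) + 1) ≤
      T * Cap p (R N ω) + T⁻¹ * ∑ k ∈ range (N + 1), (W ω (X k ω)) ^ 2 := by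
    intro ω
    have h1 : ((N : ℝ) + 1) = ∑ y ∈ R N ω, W ω y * esc p (R N ω) y := by
      have : ∀ m ∈ range (N + 1), ∑ y ∈ R N ω, G p (y - X m ω) * esc p (R N ω) y = 1 :=
        fun m hm => h.identity _ (mem_R hm)
      have h2 := Finset.sum_congr rfl this
      rw [Finset.sum_const, Finset.card_range, nsmul_eq_mul, mul_one, Finset.sum_comm] at h2
      push_cast at h2
      rw [← h2, hW]
      exact Finset.sum_congr rfl fun y _ => by rw [Finset.sum_mul]
    have h2 : ∀ y ∈ R N ω, 2 * (W ω y * esc p (R N ω) y) ≤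
        T * esc p (R N ω) y + T⁻¹ * (W ω y) ^ 2 := by
      intro y _
      have he0 := esc_nonneg p (R N ω) y
      have he1 := esc_le_one p (R N ω) y
      have h3 : 2 * (W ω y * esc p (R N ω) y) ≤
          T * (esc p (R N ω) y) ^ 2 + T⁻¹ * (W ω y) ^ 2 := by
        have h4 : 0 ≤ T⁻¹ * (W ω y - T * esc p (R N ω) y) ^ 2 := by positivity
        have h5 : T⁻¹ * (W ω y - T * esc p (R N ω) y) ^ 2 = T⁻¹ * (W ω y) ^ 2 -
            2 * (W ω y * esc p (R N ω) y) + T * (esc p (R N ω) y) ^ 2 := by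
          field_simp
          ring
        linarith
      have h6 : (esc p (R N ω) y) ^ 2 ≤ esc p (R N ω) y := by nlinarith
      have h7 := mul_le_mul_of_nonneg_left h6 hTpos.le
      linarith
    calc 2 * ((N : ℝ) + 1) = ∑ y ∈ R N ω, 2 * (W ω y * esc p (R N ω) y) := by
          rw [← Finset.mul_sum, ← h1]
      _ ≤ ∑ y ∈ R N ω, (T * esc p (R N ω) y + T⁻¹ * (W ω y) ^ 2) := Finset.sum_le_sum h2
      _ = T * Cap p (R N ω) + T⁻¹ * ∑ y ∈ R N ω, (W ω y) ^ 2 := by
          rw [Finset.sum_add_distrib, ← Finset.mul_sum, ← Finset.mul_sum, Cap]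
      _ ≤ _ := by
          have := sum_R_le (f := fun y => (W ω y) ^ 2) (fun y => sq_nonneg _) N ω
          have h3 := mul_le_mul_of_nonneg_left this (inv_nonneg.2 hTpos.le)
          linarith
  have hdepW : ∀ k ∈ range (N + 1), Dep N fun ω => W ω (X k ω) := by
    intro k hk
    rw [hW]
    refine Dep.sum fun m hm => ?_
    rw [Finset.mem_range] at hk hm
    exact ((dep_X k).mono (by omega)).comp₂ ((dep_X m).mono (by omega)) fun a b => G p (a - b)
  have hdepC : Dep N fun ω => Cap p (R N ω) := (dep_R N).comp (Cap p)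
  have hdepS : Dep N fun ω => ∑ k ∈ range (N + 1), (W ω (X k ω)) ^ 2 :=
    Dep.sum fun k hk => (hdepW k hk).comp fun x => x ^ 2
  -- second moments
  have hsec : ∀ k ∈ range (N + 1), ∫ ω, (W ω (X k ω)) ^ 2 ∂(walk p) ≤ 8 * B ^ 2 := by
    intro k hk
    rw [Finset.mem_range] at hk
    obtain ⟨n, hn⟩ : ∃ n, N + 1 = k + n := ⟨N + 1 - k, by omega⟩
    have hsplit : ∀ ω, W ω (X k ω) = (∑ i ∈ range k, G p (X k ω - X i ω)) +
        ∑ i ∈ range n, G p (-(X (k + i) ω - X k ω)) := by
      intro ω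
      rw [hW]
      simp only
      rw [hn, Finset.sum_range_add]
      congr 1
      refine Finset.sum_congr rfl fun i _ => ?_
      rw [neg_sub]
    have hle : ∀ ω, (W ω (X k ω)) ^ 2 ≤ 2 * (∑ i ∈ range k, G p (X k ω - X i ω)) ^ 2 +
        2 * (∑ i ∈ range n, G p (-(X (k + i) ω - X k ω))) ^ 2 := by
      intro ω
      rw [hsplit]
      nlinarith [sq_nonneg ((∑ i ∈ range k, G p (X k ω - X i ω)) -
        ∑ i ∈ range n, G p (-(X (k + i) ω - X k ω)))]
    have hdA : Dep (k + n) fun ω => ∑ i ∈ range k, G p (X k ω - X i ω) :=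
      Dep.sum fun i hi => by
        rw [Finset.mem_range] at hi
        exact ((dep_X k).mono (by omega)).comp₂ ((dep_X i).mono (by omega)) fun a b => G p (a - b)
    have hdB : Dep (k + n) fun ω => ∑ i ∈ range n, G p (-(X (k + i) ω - X k ω)) :=
      Dep.sum fun i hi => by
        rw [Finset.mem_range] at hi
        exact ((dep_X (k + i)).mono (by omega)).comp₂ ((dep_X k).mono (by omega))
          fun a b => G p (-(a - b))
    have hA := backward_sq h (G_nonneg p) h.G_sq k
    have hB2 : ∫ ω, (∑ i ∈ range n, G p (-(X (k + i) ω - X k ω))) ^ 2 ∂(walk p) ≤ 2 * B ^ 2 := by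
      have h1 := forward_sq h (F := fun z => G p (-z)) (fun z => G_nonneg p _) (fun S => by
        have := h.G_sq (S.map (Equiv.neg Z4).toEmbedding)
        rw [Finset.sum_map] at this
        simpa using this) n
      have hd : Dep n fun ω => (∑ i ∈ range n, G p (-(X i ω))) ^ 2 :=
        (Dep.sum fun i hi => (((dep_X i).mono (Finset.mem_range.1 hi).le).comp
          fun a => G p (-a))).comp fun x => x ^ 2
      have h2 := integral_shift p hd k
      simp only [X_shift] at h2
      rw [h2]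
      exact h1
    calc ∫ ω, (W ω (X k ω)) ^ 2 ∂(walk p)
        ≤ ∫ ω, (2 * (∑ i ∈ range k, G p (X k ω - X i ω)) ^ 2 +
        2 * (∑ i ∈ range n, G p (-(X (k + i) ω - X k ω))) ^ 2) ∂(walk p) :=
          integral_mono (((hdepW k (by rw [Finset.mem_range]; omega)).comp
            fun x => x ^ 2).integrable p)
            ((hdA.comp₂ hdB fun a b => 2 * a ^ 2 + 2 * b ^ 2).integrable p) hle
      _ = 2 * ∫ ω, (∑ i ∈ range k, G p (X k ω - X i ω)) ^ 2 ∂(walk p) +
          2 * ∫ ω, (∑ i ∈ range n, G p (-(X (k + i) ω - X k ω))) ^ 2 ∂(walk p) := by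
          rw [integral_add ((hdA.comp fun a => 2 * a ^ 2).integrable p)
            ((hdB.comp fun a => 2 * a ^ 2).integrable p), integral_const_mul, integral_const_mul]
      _ ≤ 8 * B ^ 2 := by linarith
  have hint : 2 * ((N : ℝ) + 1) ≤ T * (∫ ω, Cap p (R N ω) ∂(walk p)) +
      T⁻¹ * ∑ k ∈ range (N + 1), ∫ ω, (W ω (X k ω)) ^ 2 ∂(walk p) := by
    have h1 : ∫ _ω, (2 * ((N : ℝ) + 1)) ∂(walk p) ≤ ∫ ω, (T * Cap p (R N ω) +
        T⁻¹ * ∑ k ∈ range (N + 1), (W ω (X k ω)) ^ 2) ∂(walk p) :=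
      integral_mono (integrable_const _)
        ((hdepC.comp₂ hdepS fun a b => T * a + T⁻¹ * b).integrable p) key
    rw [integral_const, integral_add ((hdepC.comp fun a => T * a).integrable p)
      ((hdepS.comp fun a => T⁻¹ * a).integrable p), integral_const_mul, integral_const_mul,
      integral_finsetSum _ fun k hk => ((hdepW k hk).comp fun x => x ^ 2).integrable p] at h1
    simpa using h1
  have hsum : ∑ k ∈ range (N + 1), ∫ ω, (W ω (X k ω)) ^ 2 ∂(walk p) ≤ ((N : ℝ) + 1) * T := by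
    refine (Finset.sum_le_sum hsec).trans ?_
    rw [Finset.sum_const, Finset.card_range, nsmul_eq_mul, hT]
    push_cast
    exact le_rfl
  have h3 : T⁻¹ * ∑ k ∈ range (N + 1), ∫ ω, (W ω (X k ω)) ^ 2 ∂(walk p) ≤ (N : ℝ) + 1 := by
    refine (mul_le_mul_of_nonneg_left hsum (inv_nonneg.2 hTpos.le)).trans ?_
    rw [mul_comm ((N : ℝ) + 1) T, ← mul_assoc, inv_mul_cancel₀ hTpos.ne', one_mul]
  rw [← hT, div_le_iff₀ hTpos]
  linarith

end Pool.Agent.H77RW
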