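import Pool.Agent.H77RW.Lower

open MeasureTheory Finset Filter
open scoped ENNReal BigOperators Topology

namespace Pool.Agent.H77RW

/-- The squared Euclidean norm. -/
noncomputable def nsq (z : Z4) : ℝ := ∑ i, ((z i : ℤ) : ℝ) ^ 2

lemma nsq_nonneg (z : Z4) : 0 ≤ nsq z := Finset.sum_nonneg fun _ _ => sq_nonneg _

lemma nsq_zero : nsq 0 = 0 := by simp [nsq]

lemma nsq_neg (z : Z4) : nsq (-z) = nsq z := by simp [nsq]

lemma sum_nsq (x : Z4) : ∑ s : Step, nsq (x + vec s) = 8 * nsq x + 8 := by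
  simp only [nsq, vec, Fintype.sum_prod_type, Fin.sum_univ_four, Fintype.sum_bool, Pi.add_apply,
    Pi.single_apply]
  simp
  ring

/-- Uniform steps. -/
def IsUnif (p : Delta) : Prop := ∀ s, p.1 s = 1 / 8

lemma LC_nsq {p : Delta} (hp : IsUnif p) (m : ℕ) (x : Z4) :
    LC (fun z => nsq (x + z)) (pm p.1 m) = nsq x + m := by
  induction m generalizing x with
  | zero => simp [LC_zero']
  | succ m ih =>
    rw [LC_succ]
    have : ∀ s : Step, LC (fun z => nsq (x + (z + vec s))) (pm p.1 m) =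
        nsq (x + vec s) + m := by
      intro s
      rw [← ih (x + vec s)]
      congr 1
      funext z
      congr 1
      abel
    simp only [this, hp _, smul_eq_mul]
    rw [← Finset.mul_sum, Finset.sum_add_distrib, sum_nsq]
    simp
    ring

lemma integral_nsq {p : Delta} (hp : IsUnif p) (k m : ℕ) :
    ∫ ω, nsq (X (k + m) ω - X k ω) ∂(walk p) = m := by
  have h := integral_shift p ((dep_X m).comp nsq) k
  simp only [X_shift] at h
  rw [h]
  have := integral_X p nsq m 0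
  simp only [zero_add] at this
  rw [this]
  have h2 := LC_nsq hp m 0
  simp only [zero_add, nsq_zero] at h2
  exact h2

/-- Upper bound for the expected capacity of the range of the simple random walk. -/
theorem upper {p : Delta} (hp : IsUnif p) {c : ℝ} (hc : 0 < c)
    (hlow : ∀ z, ∀ᶠ M in atTop, c / (1 + nsq z) ≤ gr p.1 M z) {τ : ℝ} (hτ : 0 < τ) {n : ℕ}
    (hn : 1 ≤ n) (N : ℕ) :
    ∫ ω, Cap p (R N ω) ∂(walk p) ≤ ((N : ℝ) + 1) / (2 * τ * c) +
      τ / 2 * (((N : ℝ) + 1) * (2 / ∑ i ∈ range n, (1 / ((i : ℝ) + 1))) + n) := by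
  obtain ⟨h, hh⟩ : ∃ h : ℝ, h = ∑ i ∈ range n, (1 / ((i : ℝ) + 1)) := ⟨_, rfl⟩
  rw [← hh]
  have hhpos : 0 < h := by
    rw [hh]
    exact Finset.sum_pos (fun i _ => by positivity) ⟨0, by rw [Finset.mem_range]; omega⟩
  obtain ⟨w, hw⟩ : ∃ w : (ℕ → Step) → Z4 → ℝ,
    w = fun ω y => ∑ m ∈ range (N + 1), 1 / (1 + nsq (y - X m ω)) := ⟨_, rfl⟩
  have hterm : ∀ z, 0 < 1 / (1 + nsq z) := fun z => by have := nsq_nonneg z; positivity
  have hwpos : ∀ ω y, 0 < w ω y := fun ω y => by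
    rw [hw]
    exact Finset.sum_pos (fun i _ => hterm _) ⟨0, by simp⟩
  have hw1 : ∀ ω, ∀ k ∈ range (N + 1), 1 ≤ w ω (X k ω) := by
    intro ω k hk
    rw [hw]
    have := Finset.single_le_sum (f := fun m => 1 / (1 + nsq (X k ω - X m ω)))
      (fun m _ => (hterm _).le) hk
    simpa [nsq_zero] using this
  -- first inequality
  have ha : ∀ ω, c * ∑ y ∈ R N ω, w ω y * esc p (R N ω) y ≤ (N : ℝ) + 1 := by
    intro ω
    have hev : ∀ᶠ M in atTop, ∀ m ∈ range (N + 1), ∀ y ∈ R N ω,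
        c / (1 + nsq (y - X m ω)) ≤ gr p.1 M (y - X m ω) := by
      rw [Filter.eventually_all_finset]
      intro m _
      rw [Filter.eventually_all_finset]
      intro y _
      exact hlow _
    obtain ⟨M, hM⟩ := hev.exists
    have h1 : ∑ m ∈ range (N + 1), ∑ y ∈ R N ω, gr p.1 M (y - X m ω) * esc p (R N ω) y ≤
        ∑ m ∈ range (N + 1), (1:ℝ) := Finset.sum_le_sum fun m _ => sum_gr_le p _ M _
    rw [Finset.sum_const, Finset.card_range, nsmul_eq_mul, mul_one] at h1
    push_cast at h1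
    refine le_trans ?_ h1
    have h2 : c * ∑ y ∈ R N ω, w ω y * esc p (R N ω) y =
        ∑ m ∈ range (N + 1), ∑ y ∈ R N ω, c / (1 + nsq (y - X m ω)) * esc p (R N ω) y := by
      rw [Finset.sum_comm, Finset.mul_sum]
      refine Finset.sum_congr rfl fun y _ => ?_
      rw [hw]
      simp only
      rw [Finset.sum_mul, Finset.mul_sum]
      refine Finset.sum_congr rfl fun m _ => ?_
      ring
    rw [h2]
    exact Finset.sum_le_sum fun m hm => Finset.sum_le_sum fun y hy =>
      mul_le_mul_of_nonneg_right (hM m hm y hy) (esc_nonneg p _ _)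
  have hb : ∀ ω, Cap p (R N ω) ≤ ((N : ℝ) + 1) / (2 * τ * c) +
      τ / 2 * ∑ k ∈ range (N + 1), (w ω (X k ω))⁻¹ := by
    intro ω
    have h1 : ∀ y ∈ R N ω, esc p (R N ω) y ≤
        (2 * τ)⁻¹ * (w ω y * esc p (R N ω) y) + τ / 2 * (w ω y)⁻¹ := by
      intro y _
      have hwy := hwpos ω y
      have he0 := esc_nonneg p (R N ω) y
      have he1 := esc_le_one p (R N ω) y
      have h2 : 1 ≤ (2 * τ)⁻¹ * w ω y + τ / 2 * (w ω y)⁻¹ := by
        have h3 : 0 ≤ (w ω y - τ) ^ 2 / (2 * τ * w ω y) := by positivity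
        have h4 : (w ω y - τ) ^ 2 / (2 * τ * w ω y) =
            (2 * τ)⁻¹ * w ω y + τ / 2 * (w ω y)⁻¹ - 1 := by
          field_simp
          ring
        linarith
      have h5 : esc p (R N ω) y * 1 ≤
          esc p (R N ω) y * ((2 * τ)⁻¹ * w ω y + τ / 2 * (w ω y)⁻¹) :=
        mul_le_mul_of_nonneg_left h2 he0
      have h6 : esc p (R N ω) y * (τ / 2 * (w ω y)⁻¹) ≤ τ / 2 * (w ω y)⁻¹ :=
        mul_le_of_le_one_left (by positivity) he1
      nlinarith
    have h2 : Cap p (R N ω) ≤ (2 * τ)⁻¹ * (∑ y ∈ R N ω, w ω y * esc p (R N ω) y) +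
        τ / 2 * ∑ y ∈ R N ω, (w ω y)⁻¹ := by
      rw [Cap, Finset.mul_sum, Finset.mul_sum, ← Finset.sum_add_distrib]
      exact Finset.sum_le_sum h1
    have h3 : ∑ y ∈ R N ω, (w ω y)⁻¹ ≤ ∑ k ∈ range (N + 1), (w ω (X k ω))⁻¹ :=
      sum_R_le (f := fun y => (w ω y)⁻¹) (fun y => (inv_pos.2 (hwpos ω y)).le) N ω
    have h4 : (2 * τ)⁻¹ * (∑ y ∈ R N ω, w ω y * esc p (R N ω) y) ≤
        ((N : ℝ) + 1) / (2 * τ * c) := by
      have h5 : (∑ y ∈ R N ω, w ω y * esc p (R N ω) y) ≤ ((N : ℝ) + 1) / c := by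
        rw [le_div_iff₀ hc, mul_comm]
        exact ha ω
      refine (mul_le_mul_of_nonneg_left h5 (by positivity)).trans (le_of_eq ?_)
      field_simp
    have h5 := mul_le_mul_of_nonneg_left h3 (by positivity : (0:ℝ) ≤ τ / 2)
    linarith
  -- bounds for the inverse weights
  have hdw : ∀ k ∈ range (N + 1), Dep N fun ω => (w ω (X k ω))⁻¹ := by
    intro k hk
    rw [hw]
    refine Dep.comp (Dep.sum fun m hm => ?_) (fun x : ℝ => x⁻¹)
    rw [Finset.mem_range] at hk hm
    exact ((dep_X k).mono (by omega)).comp₂ ((dep_X m).mono (by omega))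
      fun a b => 1 / (1 + nsq (a - b))
  have hc1 : ∀ k ∈ range (N + 1), ∫ ω, (w ω (X k ω))⁻¹ ∂(walk p) ≤ 1 := by
    intro k hk
    have h1 := integral_mono ((hdw k hk).integrable p) (integrable_const (1:ℝ))
      (fun ω => inv_le_one_of_one_le₀ (hw1 ω k hk))
    simpa using h1
  have hc2 : ∀ k, k + n ≤ N → ∫ ω, (w ω (X k ω))⁻¹ ∂(walk p) ≤ 2 / h := by
    intro k hk
    have hpt : ∀ ω, (w ω (X k ω))⁻¹ ≤
        (h ^ 2)⁻¹ * ∑ i ∈ range n, ((i : ℝ) + 1)⁻¹ ^ 2 *
          (1 + nsq (X (k + (i + 1)) ω - X k ω)) := by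
      intro ω
      have hcs := Finset.sum_sq_le_sum_mul_sum_of_sq_eq_mul (range n)
        (r := fun i : ℕ => 1 / ((i : ℝ) + 1))
        (f := fun i => 1 / (1 + nsq (X k ω - X (k + (i + 1)) ω)))
        (g := fun i => ((i : ℝ) + 1)⁻¹ ^ 2 * (1 + nsq (X (k + (i + 1)) ω - X k ω)))
        (fun i _ => (hterm _).le)
        (fun i _ => by have := nsq_nonneg (X (k + (i + 1)) ω - X k ω); positivity)
        (fun i _ => by
          have h1 := nsq_nonneg (X (k + (i + 1)) ω - X k ω)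
          have h2 : nsq (X k ω - X (k + (i + 1)) ω) = nsq (X (k + (i + 1)) ω - X k ω) := by
            rw [← nsq_neg, neg_sub]
          rw [h2]
          field_simp)
      rw [← hh] at hcs
      have hsub : ∑ i ∈ range n, 1 / (1 + nsq (X k ω - X (k + (i + 1)) ω)) ≤ w ω (X k ω) := by
        rw [hw]
        simp only
        have : ∑ i ∈ range n, 1 / (1 + nsq (X k ω - X (k + (i + 1)) ω)) =
            ∑ m ∈ (range n).image (fun i => k + (i + 1)), 1 / (1 + nsq (X k ω - X m ω)) := by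
          rw [Finset.sum_image]
          intro a _ b _ hab
          simp only at hab
          omega
        rw [this]
        refine Finset.sum_le_sum_of_subset_of_nonneg ?_ fun m _ _ => (hterm _).le
        intro m hm
        obtain ⟨i, hi, rfl⟩ := Finset.mem_image.1 hm
        rw [Finset.mem_range] at hi ⊢
        omega
      obtain ⟨D, hD⟩ : ∃ D, D = ∑ i ∈ range n, ((i : ℝ) + 1)⁻¹ ^ 2 *
          (1 + nsq (X (k + (i + 1)) ω - X k ω)) := ⟨_, rfl⟩
      rw [← hD] at hcs ⊢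
      have hD0 : 0 ≤ D := by
        rw [hD]
        exact Finset.sum_nonneg fun i _ => by
          have := nsq_nonneg (X (k + (i + 1)) ω - X k ω); positivity
      have h3 : h ^ 2 ≤ w ω (X k ω) * D := hcs.trans (mul_le_mul_of_nonneg_right hsub hD0)
      have hwk := hwpos ω (X k ω)
      rw [inv_le_iff_one_le_mul₀ hwk]
      have h4 : (h ^ 2)⁻¹ * h ^ 2 = 1 := inv_mul_cancel₀ (by positivity)
      have h5 := mul_le_mul_of_nonneg_left h3 (by positivity : (0:ℝ) ≤ (h ^ 2)⁻¹)
      rw [h4] at h5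
      linarith [h5, mul_assoc ((h ^ 2)⁻¹) D (w ω (X k ω)), mul_comm (w ω (X k ω)) D]
    have hdi : ∀ i ∈ range n, Dep N fun ω => ((i : ℝ) + 1)⁻¹ ^ 2 *
        (1 + nsq (X (k + (i + 1)) ω - X k ω)) := by
      intro i hi
      rw [Finset.mem_range] at hi
      exact ((dep_X (k + (i + 1))).mono (by omega)).comp₂ ((dep_X k).mono (by omega))
        fun a b => ((i : ℝ) + 1)⁻¹ ^ 2 * (1 + nsq (a - b))
    have hdn : ∀ i ∈ range n, Dep N fun ω => nsq (X (k + (i + 1)) ω - X k ω) := by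
      intro i hi
      rw [Finset.mem_range] at hi
      exact ((dep_X (k + (i + 1))).mono (by omega)).comp₂ ((dep_X k).mono (by omega))
        fun a b => nsq (a - b)
    have h1 := integral_mono ((hdw k (by rw [Finset.mem_range]; omega)).integrable p)
      (((Dep.sum hdi).comp fun x => (h ^ 2)⁻¹ * x).integrable p) hpt
    rw [integral_const_mul, integral_finsetSum _ fun i hi => (hdi i hi).integrable p] at h1
    refine h1.trans ?_
    have h2 : ∀ i ∈ range n, ∫ ω, ((i : ℝ) + 1)⁻¹ ^ 2 *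
        (1 + nsq (X (k + (i + 1)) ω - X k ω)) ∂(walk p) ≤ 2 * (1 / ((i : ℝ) + 1)) := by
      intro i hi
      rw [integral_const_mul, integral_add (integrable_const _) ((hdn i hi).integrable p),
        integral_nsq hp, integral_const]
      have hi0 : (0:ℝ) < (i : ℝ) + 1 := by positivity
      simp only [probReal_univ, smul_eq_mul, mul_one]
      push_cast
      rw [inv_pow, inv_mul_le_iff₀ (by positivity)]
      have : ((i : ℝ) + 1) ^ 2 * (2 * (1 / ((i : ℝ) + 1))) = 2 * ((i : ℝ) + 1) := by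
        field_simp
      rw [this]
      linarith
    have h3 := Finset.sum_le_sum h2
    rw [← Finset.mul_sum, ← hh] at h3
    refine (mul_le_mul_of_nonneg_left h3 (by positivity)).trans (le_of_eq ?_)
    field_simp
  have hS : ∑ k ∈ range (N + 1), ∫ ω, (w ω (X k ω))⁻¹ ∂(walk p) ≤
      ((N : ℝ) + 1) * (2 / h) + n := by
    have h1 : ∀ k ∈ range (N + 1), ∫ ω, (w ω (X k ω))⁻¹ ∂(walk p) ≤
        2 / h + (if N < k + n then 1 else 0) := by
      intro k hk
      split_ifs with hkn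
      · have := hc1 k hk
        have h2 : 0 < 2 / h := by positivity
        linarith
      · have := hc2 k (by omega)
        linarith
    refine (Finset.sum_le_sum h1).trans ?_
    rw [Finset.sum_add_distrib, Finset.sum_const, Finset.card_range, nsmul_eq_mul]
    push_cast
    have h2 : ∑ k ∈ range (N + 1), (if N < k + n then (1:ℝ) else 0) ≤ n := by
      rw [Finset.sum_boole]
      have h3 : (range (N + 1)).filter (fun k => N < k + n) ⊆ Finset.Ico (N + 1 - n) (N + 1) := by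
        intro k hk
        rw [Finset.mem_filter, Finset.mem_range] at hk
        rw [Finset.mem_Ico]
        omega
      have h4 := Finset.card_le_card h3
      rw [Nat.card_Ico] at h4
      have h5 : #{k ∈ range (N + 1) | N < k + n} ≤ n := by omega
      exact_mod_cast h5
    linarith
  have hdC : Dep N fun ω => Cap p (R N ω) := (dep_R N).comp (Cap p)
  have hfin := integral_mono (hdC.integrable p)
    (((Dep.sum hdw).comp fun x => ((N : ℝ) + 1) / (2 * τ * c) + τ / 2 * x).integrable p) hb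
  rw [integral_add (integrable_const _) (((Dep.sum hdw).comp fun x => τ / 2 * x).integrable p),
    integral_const_mul, integral_finsetSum _ fun k hk => (hdw k hk).integrable p,
    integral_const] at hfin
  simp only [probReal_univ, smul_eq_mul, one_mul] at hfin
  have h6 := mul_le_mul_of_nonneg_left hS (by positivity : (0:ℝ) ≤ τ / 2)
  linarith

/-- The expected capacity of the range of the simple random walk is `o(N)`. -/
theorem upper_eps {p : Delta} (hp : IsUnif p) {c : ℝ} (hc : 0 < c)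
    (hlow : ∀ z, ∀ᶠ M in atTop, c / (1 + nsq z) ≤ gr p.1 M z) {ε : ℝ} (hε : 0 < ε) :
    ∀ᶠ N : ℕ in atTop, ∫ ω, Cap p (R N ω) ∂(walk p) ≤ ε * ((N : ℝ) + 1) := by
  obtain ⟨τ, hτ⟩ : ∃ τ : ℝ, τ = 2 / (ε * c) := ⟨_, rfl⟩
  have hτpos : 0 < τ := by rw [hτ]; positivity
  obtain ⟨n, hn1, hn⟩ : ∃ n : ℕ, 1 ≤ n ∧ 4 * τ / ε ≤ ∑ i ∈ range n, (1 / ((i : ℝ) + 1)) := by
    have h1 := Real.tendsto_sum_range_one_div_nat_succ_atTop
    have h2 := h1.eventually_ge_atTop (4 * τ / ε)
    exact ((eventually_ge_atTop 1).and h2).exists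
  obtain ⟨N0, hN0⟩ := exists_nat_ge (2 * τ * n / ε)
  filter_upwards [eventually_ge_atTop N0] with N hN
  have h1 := upper hp hc hlow hτpos hn1 N
  obtain ⟨h, hh⟩ : ∃ h : ℝ, h = ∑ i ∈ range n, (1 / ((i : ℝ) + 1)) := ⟨_, rfl⟩
  rw [← hh] at h1 hn
  have hhpos : 0 < h := lt_of_lt_of_le (by positivity) hn
  have hNN : 2 * τ * n / ε ≤ (N : ℝ) + 1 := by
    have : (N0 : ℝ) ≤ N := by exact_mod_cast hN
    linarith
  have e1 : ((N : ℝ) + 1) / (2 * τ * c) = ε / 4 * ((N : ℝ) + 1) := by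
    rw [hτ]; field_simp; ring
  have e2 : τ / 2 * (2 / h) ≤ ε / 4 := by
    have : 4 * τ ≤ h * ε := by rwa [div_le_iff₀ hε] at hn
    rw [div_mul_div_comm, div_le_div_iff₀ (by positivity) (by norm_num)]
    nlinarith
  have e3 : τ / 2 * n ≤ ε / 4 * ((N : ℝ) + 1) := by
    have : 2 * τ * n ≤ ((N : ℝ) + 1) * ε := by rwa [div_le_iff₀ hε] at hNN
    nlinarith
  have hN1 : (0:ℝ) < (N : ℝ) + 1 := by positivity
  have e4 := mul_le_mul_of_nonneg_right e2 hN1.le
  nlinarith

end Pool.Agent.H77RW
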