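import Mathlib

open MeasureTheory Finset
open scoped ENNReal BigOperators Topology

namespace Pool.Agent.H77RW

/-- The lattice `ℤ⁴`. -/
abbrev Z4 := Fin 4 → ℤ

/-- The eight nearest-neighbour steps: `(i, true)` is `e_i`, `(i, false)` is `-e_i`. -/
abbrev Step := Fin 4 × Bool

/-- The vector of a step. -/
def vec (s : Step) : Z4 := Pi.single s.1 (if s.2 then 1 else -1)

/-- The open simplex of the probability vectors with support exactly the eight steps. -/
def Delta : Type := {p : Step → ℝ // (∀ s, 0 < p s) ∧ ∑ s, p s = 1}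

/-- The law of one step. -/
noncomputable def law (p : Delta) : Measure Step :=
  ∑ s, ENNReal.ofReal (p.1 s) • Measure.dirac s

instance instLaw (p : Delta) : IsProbabilityMeasure (law p) := by
  constructor
  simp only [law, Measure.coe_finsetSum, Finset.sum_apply, Measure.smul_apply, measure_univ,
    smul_eq_mul, mul_one]
  rw [← ENNReal.ofReal_sum_of_nonneg (fun s _ => (p.2.1 s).le), p.2.2, ENNReal.ofReal_one]

/-- The law of an i.i.d. sequence of steps. -/
noncomputable def walk (p : Delta) : Measure (ℕ → Step) :=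
  Measure.infinitePi (fun _ : ℕ => law p)

instance instWalk (p : Delta) : IsProbabilityMeasure (walk p) := by
  unfold walk; infer_instance

/-- The walk from the origin. -/
def X (n : ℕ) (ω : ℕ → Step) : Z4 := ∑ i ∈ range n, vec (ω i)

/-- Prepend a step. -/
def cons (s : Step) (ω : ℕ → Step) : ℕ → Step := fun n => Nat.casesOn n s ω

lemma X_zero (ω : ℕ → Step) : X 0 ω = 0 := by simp [X]

lemma X_succ (n : ℕ) (ω : ℕ → Step) : X (n + 1) ω = X n ω + vec (ω n) := by
  simp [X, Finset.sum_range_succ]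

lemma X_cons (n : ℕ) (s : Step) (ω : ℕ → Step) : X (n + 1) (cons s ω) = vec s + X n ω := by
  simp only [X, Finset.sum_range_succ']
  rw [add_comm]
  rfl

lemma measurable_cons (s : Step) : Measurable (cons s) := by
  refine measurable_pi_lambda _ fun n => ?_
  cases n with
  | zero => exact measurable_const
  | succ n => exact measurable_pi_apply n

lemma walk_eq (p : Delta) :
    walk p = ∑ s, ENNReal.ofReal (p.1 s) • (walk p).map (cons s) := by
  classical
  symm
  refine Measure.eq_infinitePi _ fun S t ht => ?_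
  obtain ⟨S', hS'⟩ : ∃ S' : Finset ℕ, S' = (S.erase 0).preimage Nat.succ
      (Nat.succ_injective.injOn) := ⟨_, rfl⟩
  have hmem : ∀ i, i ∈ S' ↔ i + 1 ∈ S := by
    intro i
    rw [hS', Finset.mem_preimage]
    simp
  have hprod : ∏ i ∈ S.erase 0, law p (t i) = ∏ i ∈ S', law p (t (i + 1)) := by
    rw [hS']
    symm
    refine Finset.prod_preimage Nat.succ (S.erase 0) Nat.succ_injective.injOn
      (fun i => law p (t i)) ?_
    intro x hx hx'
    exfalso
    apply hx'
    rw [Finset.mem_erase] at hx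
    exact ⟨x - 1, by simp only [Nat.succ_eq_add_one]; omega⟩
  have hbox : walk p (Set.pi S' fun i => t (i + 1)) = ∏ i ∈ S', law p (t (i + 1)) :=
    Measure.infinitePi_pi _ (fun i _ => ht (i + 1))
  have hpre : ∀ s, (walk p).map (cons s) (Set.pi S t) =
      if (0 ∈ S → s ∈ t 0) then ∏ i ∈ S', law p (t (i + 1)) else 0 := by
    intro s
    rw [Measure.map_apply (measurable_cons s)
      (MeasurableSet.pi S.countable_toSet fun i _ => ht i)]
    split_ifs with h
    · rw [← hbox]
      congr 1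
      ext ω
      simp only [Set.mem_preimage, Set.mem_pi, Finset.mem_coe]
      constructor
      · intro h1 i hi
        exact h1 (i + 1) ((hmem i).1 hi)
      · intro h1 i hi
        cases i with
        | zero => exact h hi
        | succ i => exact h1 i ((hmem i).2 hi)
    · have : cons s ⁻¹' Set.pi S t = ∅ := by
        ext ω
        simp only [Set.mem_preimage, Set.mem_pi, Finset.mem_coe, Set.mem_empty_iff_false,
          iff_false]
        intro h1
        exact h fun h0 => h1 0 h0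
      rw [this, measure_empty]
  simp only [Measure.coe_finsetSum, Finset.sum_apply, Measure.smul_apply, smul_eq_mul, hpre]
  by_cases h0 : 0 ∈ S
  · rw [← Finset.mul_prod_erase S (fun i => law p (t i)) h0, hprod]
    have : law p (t 0) = ∑ s, ENNReal.ofReal (p.1 s) * (t 0).indicator 1 s := by
      simp only [law, Measure.coe_finsetSum, Finset.sum_apply, Measure.smul_apply, smul_eq_mul]
      refine Finset.sum_congr rfl fun s _ => ?_
      rw [Measure.dirac_apply' _ (ht 0)]
    rw [this, Finset.sum_mul]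
    refine Finset.sum_congr rfl fun s _ => ?_
    by_cases hs : s ∈ t 0
    · simp [hs]
    · simp [hs, h0]
  · have h1 : ∏ i ∈ S, law p (t i) = ∏ i ∈ S', law p (t (i + 1)) := by
      rw [← hprod, Finset.erase_eq_of_notMem h0]
    rw [h1]
    simp only [h0, false_imp_iff, if_true]
    rw [← Finset.sum_mul, ← ENNReal.ofReal_sum_of_nonneg (fun s _ => (p.2.1 s).le), p.2.2,
      ENNReal.ofReal_one, one_mul]

/-- First step decomposition for events. -/
lemma real_step (p : Delta) {E : Set (ℕ → Step)} (hE : MeasurableSet E) :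
    (walk p).real E = ∑ s, p.1 s * (walk p).real (cons s ⁻¹' E) := by
  have h : walk p E = ∑ s, ENNReal.ofReal (p.1 s) * walk p (cons s ⁻¹' E) := by
    conv_lhs => rw [walk_eq p]
    simp only [Measure.coe_finsetSum, Finset.sum_apply, Measure.smul_apply, smul_eq_mul]
    refine Finset.sum_congr rfl fun s _ => ?_
    rw [Measure.map_apply (measurable_cons s) hE]
  rw [Measure.real, h, ENNReal.toReal_sum (fun s _ => ENNReal.mul_ne_top ENNReal.ofReal_ne_top
    (measure_ne_top _ _))]
  refine Finset.sum_congr rfl fun s _ => ?_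
  rw [ENNReal.toReal_mul, ENNReal.toReal_ofReal (p.2.1 s).le, Measure.real]

/-- `Ψ` depends on the first `n` steps only. -/
def Dep {α : Type*} (n : ℕ) (Ψ : (ℕ → Step) → α) : Prop :=
  ∀ ω ω', (∀ i < n, ω i = ω' i) → Ψ ω = Ψ ω'

lemma Dep.factor {α : Type*} {n : ℕ} {Ψ : (ℕ → Step) → α} (h : Dep n Ψ) :
    Ψ = (fun w : Fin n → Step => Ψ fun i => if hi : i < n then w ⟨i, hi⟩ else (0, true)) ∘
      (fun ω (i : Fin n) => ω i) := by
  funext ω
  refine h _ _ fun i hi => ?_
  simp [hi]

lemma Dep.measurable {α : Type*} [MeasurableSpace α] {n : ℕ} {Ψ : (ℕ → Step) → α}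
    (h : Dep n Ψ) : Measurable Ψ := by
  rw [h.factor]
  refine Measurable.comp (Measurable.of_discrete) ?_
  exact measurable_pi_lambda _ fun i => measurable_pi_apply _

lemma Dep.integrable {n : ℕ} {Ψ : (ℕ → Step) → ℝ} (h : Dep n Ψ) (p : Delta) :
    Integrable Ψ (walk p) := by
  rw [h.factor]
  refine Integrable.comp_measurable ?_ (measurable_pi_lambda _ fun i => measurable_pi_apply _)
  exact Integrable.of_finite

lemma Dep.mono {α : Type*} {n m : ℕ} {Ψ : (ℕ → Step) → α} (h : Dep n Ψ) (hnm : n ≤ m) :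
    Dep m Ψ := fun ω ω' hω => h ω ω' fun i hi => hω i (lt_of_lt_of_le hi hnm)

lemma Dep.comp {α β : Type*} {n : ℕ} {Ψ : (ℕ → Step) → α} (h : Dep n Ψ) (f : α → β) :
    Dep n fun ω => f (Ψ ω) := fun ω ω' hω => congrArg f (h ω ω' hω)

lemma Dep.comp₂ {α β γ : Type*} {n : ℕ} {Ψ : (ℕ → Step) → α} {Ψ' : (ℕ → Step) → β}
    (h : Dep n Ψ) (h' : Dep n Ψ') (f : α → β → γ) :
    Dep n fun ω => f (Ψ ω) (Ψ' ω) := fun ω ω' hω => congrArg₂ f (h ω ω' hω) (h' ω ω' hω)

lemma Dep.sum {ι : Type*} {n : ℕ} {S : Finset ι} {Ψ : ι → (ℕ → Step) → ℝ}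
    (h : ∀ i ∈ S, Dep n (Ψ i)) : Dep n fun ω => ∑ i ∈ S, Ψ i ω :=
  fun ω ω' hω => Finset.sum_congr rfl fun i hi => h i hi ω ω' hω

lemma dep_X (n : ℕ) : Dep n (X n) := by
  intro ω ω' h
  simp only [X]
  exact Finset.sum_congr rfl fun i hi => by rw [h i (Finset.mem_range.1 hi)]

/-- First step decomposition for integrals. -/
lemma integral_step (p : Delta) {n : ℕ} {Ψ : (ℕ → Step) → ℝ} (h : Dep n Ψ) :
    ∫ ω, Ψ ω ∂(walk p) = ∑ s, p.1 s * ∫ ω, Ψ (cons s ω) ∂(walk p) := by
  have hi := h.integrable p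
  have hi' := hi
  rw [walk_eq p] at hi'
  rw [integrable_finsetSum_measure] at hi'
  conv_lhs => rw [walk_eq p]
  rw [integral_finsetSum_measure hi']
  refine Finset.sum_congr rfl fun s _ => ?_
  rw [integral_smul_measure, integral_map (measurable_cons s).aemeasurable
    h.measurable.aestronglyMeasurable, ENNReal.toReal_ofReal (p.2.1 s).le, smul_eq_mul]

lemma Dep.cons {α : Type*} {n : ℕ} {Ψ : (ℕ → Step) → α} (h : Dep (n + 1) Ψ) (s : Step) :
    Dep n fun ω => Ψ (cons s ω) := by
  intro ω ω' hω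
  refine h _ _ fun i hi => ?_
  cases i with
  | zero => rfl
  | succ i => exact hω i (by omega)

/-- Shift invariance. -/
lemma integral_shift (p : Delta) {n : ℕ} {Ψ : (ℕ → Step) → ℝ} (h : Dep n Ψ) (k : ℕ) :
    ∫ ω, Ψ (fun i => ω (k + i)) ∂(walk p) = ∫ ω, Ψ ω ∂(walk p) := by
  induction k with
  | zero => simp
  | succ k ih =>
    have hd : Dep (n + (k + 1)) fun ω : ℕ → Step => Ψ (fun i => ω (k + 1 + i)) := by
      intro ω ω' hω
      exact h _ _ fun i hi => hω _ (by omega)
    rw [integral_step p hd]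
    have : ∀ s : Step, ∫ ω, Ψ (fun i => H77RW.cons s ω (k + 1 + i)) ∂(walk p) =
        ∫ ω, Ψ ω ∂(walk p) := by
      intro s
      rw [← ih]
      congr 1
      funext ω
      congr 1
      funext i
      rw [show k + 1 + i = (k + i) + 1 by ring]
      rfl
    simp only [this]
    rw [← Finset.sum_mul, p.2.2, one_mul]

lemma X_shift (k m : ℕ) (ω : ℕ → Step) : X m (fun i => ω (k + i)) = X (k + m) ω - X k ω := by
  simp only [X, Finset.sum_range_add]
  simp

/-- The distribution of `X n`. -/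
noncomputable def pm (p : Step → ℝ) : ℕ → (Z4 →₀ ℝ)
  | 0 => Finsupp.single 0 1
  | n + 1 => ∑ s, p s • (pm p n).mapDomain (fun z => z + vec s)

/-- The sum of `F` against a finitely supported function. -/
noncomputable def LC {E : Type*} [AddCommGroup E] [Module ℝ E] (F : Z4 → E) (f : Z4 →₀ ℝ) : E :=
  Finsupp.linearCombination ℝ F f

lemma LC_zero' {E : Type*} [AddCommGroup E] [Module ℝ E] (F : Z4 → E) (p : Step → ℝ) :
    LC F (pm p 0) = F 0 := by simp [LC, pm]

lemma LC_succ {E : Type*} [AddCommGroup E] [Module ℝ E] (F : Z4 → E) (p : Step → ℝ) (n : ℕ) :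
    LC F (pm p (n + 1)) = ∑ s, p s • LC (fun z => F (z + vec s)) (pm p n) := by
  simp only [LC, pm, map_sum, map_smul, Finsupp.linearCombination_mapDomain]
  rfl

lemma LC_def (F : Z4 → ℝ) (f : Z4 →₀ ℝ) : LC F f = ∑ z ∈ f.support, f z * F z := by
  simp [LC, Finsupp.linearCombination_apply, Finsupp.sum]

lemma LC_add {E : Type*} [AddCommGroup E] [Module ℝ E] (F : Z4 → E) (f g : Z4 →₀ ℝ) :
    LC F (f + g) = LC F f + LC F g := by simp [LC]

lemma LC_sum {E : Type*} [AddCommGroup E] [Module ℝ E] {ι : Type*} (F : Z4 → E) (S : Finset ι)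
    (f : ι → Z4 →₀ ℝ) : LC F (∑ i ∈ S, f i) = ∑ i ∈ S, LC F (f i) := by simp [LC]

lemma LC_sub_fun (F G : Z4 → ℝ) (f : Z4 →₀ ℝ) :
    LC (fun z => F z + G z) f = LC F f + LC G f := by
  simp only [LC_def, mul_add, Finset.sum_add_distrib]

lemma LC_smul_fun (c : ℝ) (F : Z4 → ℝ) (f : Z4 →₀ ℝ) :
    LC (fun z => c * F z) f = c * LC F f := by
  simp only [LC_def, Finset.mul_sum]
  exact Finset.sum_congr rfl fun z _ => by ring

lemma LC_mono {F G : Z4 → ℝ} {f : Z4 →₀ ℝ} (hf : ∀ z, 0 ≤ f z) (h : ∀ z, F z ≤ G z) :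
    LC F f ≤ LC G f := by
  simp only [LC_def]
  exact Finset.sum_le_sum fun z _ => mul_le_mul_of_nonneg_left (h z) (hf z)

lemma LC_indicator (w : Z4) (f : Z4 →₀ ℝ) : LC (fun z => if z = w then (1:ℝ) else 0) f = f w := by
  rw [LC_def]
  simp only [mul_ite, mul_one, mul_zero]
  rw [Finset.sum_ite_eq' f.support w f]
  split_ifs with h
  · rfl
  · exact (Finsupp.notMem_support_iff.1 h).symm

lemma pm_apply_succ (p : Step → ℝ) (n : ℕ) (z : Z4) :
    pm p (n + 1) z = ∑ s, p s * pm p n (z - vec s) := by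
  rw [← LC_indicator, LC_succ]
  refine Finset.sum_congr rfl fun s _ => ?_
  rw [smul_eq_mul, ← LC_indicator (z - vec s)]
  congr 2
  funext w
  simp only [eq_sub_iff_add_eq]

lemma pm_nonneg {p : Step → ℝ} (hp : ∀ s, 0 ≤ p s) (n : ℕ) (z : Z4) : 0 ≤ pm p n z := by
  induction n generalizing z with
  | zero =>
    simp only [pm, Finsupp.single_apply]
    split_ifs <;> norm_num
  | succ n ih =>
    rw [pm_apply_succ]
    exact Finset.sum_nonneg fun s _ => mul_nonneg (hp s) (ih _)

lemma pm_zero_apply (p : Step → ℝ) (z : Z4) : pm p 0 z = if z = 0 then 1 else 0 := by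
  simp only [pm, Finsupp.single_apply, eq_comm]

lemma LC_one {p : Step → ℝ} (hp : ∑ s, p s = 1) (n : ℕ) (c : ℝ) :
    LC (fun _ => c) (pm p n) = c := by
  induction n with
  | zero => rw [LC_zero']
  | succ n ih => rw [LC_succ, ih]; rw [← Finset.sum_smul, hp, one_smul]

lemma integral_X (p : Delta) (F : Z4 → ℝ) (n : ℕ) (x : Z4) :
    ∫ ω, F (x + X n ω) ∂(walk p) = LC (fun z => F (x + z)) (pm p.1 n) := by
  induction n generalizing x with
  | zero => simp [X_zero, LC_zero']
  | succ n ih =>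
    rw [integral_step p ((dep_X (n + 1)).comp fun y => F (x + y)), LC_succ]
    refine Finset.sum_congr rfl fun s _ => ?_
    rw [smul_eq_mul]
    congr 1
    simp only [X_cons, ← add_assoc]
    rw [ih]
    congr 1
    funext z
    congr 1
    abel

lemma integral_two (p : Delta) (Φ : Z4 → Z4 → ℝ) (i j : ℕ) (x : Z4) :
    ∫ ω, Φ (x + X i ω) (X (i + j) ω - X i ω) ∂(walk p) =
      LC (fun y => LC (Φ (x + y)) (pm p.1 j)) (pm p.1 i) := by
  induction i generalizing x with
  | zero =>
    simp only [X_zero, LC_zero', Nat.zero_add, sub_zero, add_zero]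
    have := integral_X p (Φ x) j 0
    simpa using this
  | succ i ih =>
    have hd : Dep (i + 1 + j) fun ω => Φ (x + X (i + 1) ω) (X (i + 1 + j) ω - X (i + 1) ω) :=
      (((dep_X (i + 1)).mono (by omega)).comp₂ (dep_X (i + 1 + j)) fun a b => Φ (x + a) (b - a))
    rw [integral_step p hd, LC_succ]
    refine Finset.sum_congr rfl fun s _ => ?_
    rw [smul_eq_mul]
    congr 1
    have h1 : ∀ ω, X (i + 1 + j) (cons s ω) = vec s + X (i + j) ω := by
      intro ω
      rw [show i + 1 + j = (i + j) + 1 by ring, X_cons]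
    simp only [X_cons, h1, ← add_assoc, add_sub_add_left_eq_sub]
    rw [ih]
    congr 1
    funext y
    congr 2
    abel

end Pool.Agent.H77RW
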